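import Pool.Agent.Lib.MP_76ae7e_lc.Classify

/-!
The common theory of all the structures `Md κ σ`; its models satisfy `Good`.
-/

open FirstOrder Cardinal

namespace Pool.Agent.Lib.MP_76ae7e_lc

open Language

/-- The common theory of the standard structures. -/
def Ax : LR.Theory := {φ | ∀ (κ : Type) (σ : κ → Bool → Bool), Md κ σ ⊨ φ}

/-- atomic formula -/
def fR (i : ℕ) {k : ℕ} (a b : Fin k) : LR.BoundedFormula Empty k :=
  Relations.boundedFormula₂ (L := LR) (RelSym.r i) (Term.var (Sum.inr a)) (Term.var (Sum.inr b))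

/-- formula for `E n` -/
def fE (n : ℕ) {k : ℕ} (a b : Fin k) : LR.BoundedFormula Empty k :=
  match n with
  | 0 => Term.bdEqual (Term.var (Sum.inr a)) (Term.var (Sum.inr b))
  | n + 1 => fR (ps n 0) a b

section
variable {N : Type} [LR.Structure N]

theorem realize_fR (i : ℕ) {k : ℕ} (a b : Fin k) (v : Empty → N) (xs : Fin k → N) :
    (fR i a b).Realize v xs ↔ R' N i (xs a) (xs b) :=
  BoundedFormula.realize_rel₂ (L := LR)

theorem realize_fE (n : ℕ) {k : ℕ} (a b : Fin k) (v : Empty → N) (xs : Fin k → N) :
    (fE n a b).Realize v xs ↔ E N n (xs a) (xs b) := by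
  cases n with
  | zero =>
    unfold fE
    rw [BoundedFormula.realize_bdEqual]
    rfl
  | succ n => exact realize_fR _ _ _ _ _

omit [LR.Structure N] in
theorem snoc1 (f : Fin 0 → N) (x : N) : (Fin.snoc (α := fun _ => N) f x) = ![x] := by
  funext i; fin_cases i; rfl
omit [LR.Structure N] in
theorem snoc2 (x y : N) : (Fin.snoc (α := fun _ => N) ![x] y) = ![x, y] := by
  funext i; fin_cases i <;> rfl
omit [LR.Structure N] in
theorem snoc3 (x y z : N) : (Fin.snoc (α := fun _ => N) ![x, y] z) = ![x, y, z] := by
  funext i; fin_cases i <;> rfl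
omit [LR.Structure N] in
theorem snoc4 (x y z w : N) :
    (Fin.snoc (α := fun _ => N) ![x, y, z] w) = ![x, y, z, w] := by
  funext i; fin_cases i <;> rfl
omit [LR.Structure N] in
theorem snoc5 (x y z w u : N) :
    (Fin.snoc (α := fun _ => N) ![x, y, z, w] u) = ![x, y, z, w, u] := by
  funext i; fin_cases i <;> rfl

end

theorem transfer {N : Type} [LR.Structure N] (hN : N ⊨ Ax) (φ : LR.Sentence)
    (p : (N : Type) → [LR.Structure N] → Prop)
    (h1 : ∀ (N : Type) [LR.Structure N], N ⊨ φ ↔ p N)
    (h2 : ∀ (κ : Type) (σ : κ → Bool → Bool), p (Md κ σ)) : p N :=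
  (h1 N).1 (hN.realize_of_mem φ fun κ σ => (h1 _).2 (h2 κ σ))

/-- formula for `Tri` at the variables `0 1 2`, in a context with `3` variables -/
def fTri (n : ℕ) : LR.BoundedFormula Empty 3 :=
  fE (n + 1) 0 1 ⊓ (fE (n + 1) 0 2 ⊓ ((fE n 0 1).not ⊓ ((fE n 1 2).not ⊓ ((fE n 0 2).not ⊓
    BoundedFormula.all ((fE (n + 1) (0 : Fin 4) 3).imp (fE n 0 3 ⊔ (fE n 1 3 ⊔ fE n 2 3)))))))

theorem realize_fTri {N : Type} [LR.Structure N] (n : ℕ) (v : Empty → N) (x y z : N) :
    (fTri n).Realize v ![x, y, z] ↔ Tri N n x y z := by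
  unfold fTri Tri
  simp only [BoundedFormula.realize_inf, BoundedFormula.realize_not, BoundedFormula.realize_all,
    BoundedFormula.realize_imp, BoundedFormula.realize_sup, realize_fE, snoc4]
  rfl

theorem good_of_model {N : Type} [LR.Structure N] (hN : N ⊨ Ax) : Good N where
  refl n := transfer hN (BoundedFormula.all (fE (n + 1) 0 0)) (fun N _ => ∀ x, E N (n + 1) x x)
    (fun N _ => by
      simp only [Sentence.Realize, Formula.Realize, BoundedFormula.realize_all, realize_fE, snoc1]
      rfl)
    (fun κ σ => (good_Md σ).refl n)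
  symm n := transfer hN
    (BoundedFormula.all (BoundedFormula.all ((fE (n + 1) 0 1).imp (fE (n + 1) 1 0))))
    (fun N _ => ∀ x y, E N (n + 1) x y → E N (n + 1) y x)
    (fun N _ => by
      simp only [Sentence.Realize, Formula.Realize, BoundedFormula.realize_all,
        BoundedFormula.realize_imp, realize_fE, snoc1, snoc2]
      rfl)
    (fun κ σ => (good_Md σ).symm n)
  trans n := transfer hN
    (BoundedFormula.all (BoundedFormula.all (BoundedFormula.all
      ((fE (n + 1) 0 1).imp ((fE (n + 1) 1 2).imp (fE (n + 1) 0 2))))))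
    (fun N _ => ∀ x y z, E N (n + 1) x y → E N (n + 1) y z → E N (n + 1) x z)
    (fun N _ => by
      simp only [Sentence.Realize, Formula.Realize, BoundedFormula.realize_all,
        BoundedFormula.realize_imp, realize_fE, snoc1, snoc2, snoc3]
      rfl)
    (fun κ σ => (good_Md σ).trans n)
  mono n := transfer hN
    (BoundedFormula.all (BoundedFormula.all ((fE n 0 1).imp (fE (n + 1) 0 1))))
    (fun N _ => ∀ x y, E N n x y → E N (n + 1) x y)
    (fun N _ => by
      simp only [Sentence.Realize, Formula.Realize, BoundedFormula.realize_all,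
        BoundedFormula.realize_imp, realize_fE, snoc1, snoc2]
      rfl)
    (fun κ σ => (good_Md σ).mono n)
  tri n := transfer hN
    (BoundedFormula.all (BoundedFormula.ex (BoundedFormula.ex (fTri n))))
    (fun N _ => ∀ x, ∃ y z, Tri N n x y z)
    (fun N _ => by
      simp only [Sentence.Realize, Formula.Realize, BoundedFormula.realize_all,
        BoundedFormula.realize_ex, snoc1, snoc2, snoc3, realize_fTri])
    (fun κ σ => (good_Md σ).tri n)
  undef n s hs := transfer hN
    (BoundedFormula.all (BoundedFormula.all ((fR (ps n s) 0 1).iff (fE (n + 1) 0 1))))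
    (fun N _ => ∀ x y, (R' N (ps n s) x y ↔ E N (n + 1) x y))
    (fun N _ => by
      simp only [Sentence.Realize, Formula.Realize, BoundedFormula.realize_all,
        BoundedFormula.realize_iff, realize_fE, realize_fR, snoc1, snoc2]
      rfl)
    (fun κ σ => (good_Md σ).undef n s hs)
  sub n s := transfer hN
    (BoundedFormula.all (BoundedFormula.all ((fR (ps n s) 0 1).imp (fE (n + 1) 0 1))))
    (fun N _ => ∀ x y, R' N (ps n s) x y → E N (n + 1) x y)
    (fun N _ => by
      simp only [Sentence.Realize, Formula.Realize, BoundedFormula.realize_all,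
        BoundedFormula.realize_imp, realize_fE, realize_fR, snoc1, snoc2]
      rfl)
    (fun κ σ => (good_Md σ).sub n s)
  cyc n s b hb := transfer hN
    (BoundedFormula.all (BoundedFormula.ex (BoundedFormula.ex (fTri n ⊓
      BoundedFormula.all (BoundedFormula.all ((fE (n + 1) (0 : Fin 5) 3).imp
        ((fR (ps n s) 3 4).iff ((fE n 0 3 ⊓ fE n 1 4) ⊔ ((fE n 1 3 ⊓ fE n 2 4) ⊔
          (fE n 2 3 ⊓ fE n 0 4))))))))))
    (fun N _ => ∀ x, ∃ y z, Tri N n x y z ∧
      ∀ w w', E N (n + 1) x w → (R' N (ps n s) w w' ↔ Cyc N n x y z w w'))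
    (fun N _ => by
      simp only [Sentence.Realize, Formula.Realize, BoundedFormula.realize_all,
        BoundedFormula.realize_ex, BoundedFormula.realize_inf, BoundedFormula.realize_sup,
        BoundedFormula.realize_imp, BoundedFormula.realize_iff, realize_fE, realize_fR,
        snoc1, snoc2, snoc3, snoc4, snoc5, realize_fTri]
      rfl)
    (fun κ σ => (good_Md σ).cyc n s b hb)
  coh n s s' b b' h h' := transfer hN
    (BoundedFormula.all (BoundedFormula.all ((fR (ps n s) 0 1).iff (fR (ps n s') 0 1))))
    (fun N _ => ∀ x y, (R' N (ps n s) x y ↔ R' N (ps n s') x y))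
    (fun N _ => by
      simp only [Sentence.Realize, Formula.Realize, BoundedFormula.realize_all,
        BoundedFormula.realize_iff, realize_fR, snoc1, snoc2]
      rfl)
    (fun κ σ => (good_Md σ).coh n s s' b b' h h')
  nm_eq m := transfer hN
    (BoundedFormula.all (BoundedFormula.all ((fR (nm m) 0 1).imp (fE 0 0 1))))
    (fun N _ => ∀ x y, R' N (nm m) x y → x = y)
    (fun N _ => by
      simp only [Sentence.Realize, Formula.Realize, BoundedFormula.realize_all,
        BoundedFormula.realize_imp, realize_fE, realize_fR, snoc1, snoc2]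
      rfl)
    (fun κ σ => (good_Md σ).nm_eq m)
  nm_ex m := transfer hN
    (BoundedFormula.ex (fR (nm m) 0 0))
    (fun N _ => ∃ x, R' N (nm m) x x)
    (fun N _ => by
      simp only [Sentence.Realize, Formula.Realize, BoundedFormula.realize_ex, realize_fR, snoc1]
      rfl)
    (fun κ σ => (good_Md σ).nm_ex m)
  nm_uniq m := transfer hN
    (BoundedFormula.all (BoundedFormula.all
      ((fR (nm m) 0 0).imp ((fR (nm m) 1 1).imp (fE 0 0 1)))))
    (fun N _ => ∀ x y, R' N (nm m) x x → R' N (nm m) y y → x = y)
    (fun N _ => by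
      simp only [Sentence.Realize, Formula.Realize, BoundedFormula.realize_all,
        BoundedFormula.realize_imp, realize_fE, realize_fR, snoc1, snoc2]
      rfl)
    (fun κ σ => (good_Md σ).nm_uniq m)
  nm_rel i m m' := by
    by_cases ht : rel (κ := Empty) (σ := fun _ _ => true) i ⟨none, m⟩ ⟨none, m'⟩
    · simp only [ht, iff_true]
      exact transfer hN
        (BoundedFormula.all (BoundedFormula.all
          ((fR (nm m) 0 0).imp ((fR (nm m') 1 1).imp (fR i 0 1)))))
        (fun N _ => ∀ x y, R' N (nm m) x x → R' N (nm m') y y → R' N i x y)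
        (fun N _ => by
          simp only [Sentence.Realize, Formula.Realize, BoundedFormula.realize_all,
            BoundedFormula.realize_imp, realize_fR, snoc1, snoc2]
          rfl)
        (fun κ σ x y hx hy => ((good_Md σ).nm_rel i m m' x y hx hy).2 ht)
    · simp only [ht, iff_false]
      exact transfer hN
        (BoundedFormula.all (BoundedFormula.all
          ((fR (nm m) 0 0).imp ((fR (nm m') 1 1).imp (fR i 0 1).not))))
        (fun N _ => ∀ x y, R' N (nm m) x x → R' N (nm m') y y → ¬ R' N i x y)
        (fun N _ => by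
          simp only [Sentence.Realize, Formula.Realize, BoundedFormula.realize_all,
            BoundedFormula.realize_imp, BoundedFormula.realize_not, realize_fR, snoc1, snoc2]
          rfl)
        (fun κ σ x y hx hy h => ht (((good_Md σ).nm_rel i m m' x y hx hy).1 h))
  nm_cl n m := transfer hN
    (BoundedFormula.all (BoundedFormula.all
      ((fR (nm m) 0 0).imp ((fE (n + 1) 0 1).imp
        (((List.range (3 ^ (n + 1) * (m + 1))).map
          (fun m' => fR (k := 2) (nm m') 1 1)).foldr (· ⊔ ·) ⊥)))))
    (fun N _ => ∀ x y, R' N (nm m) x x → E N (n + 1) x y →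
      ∃ m' < 3 ^ (n + 1) * (m + 1), R' N (nm m') y y)
    (fun N _ => by
      simp only [Sentence.Realize, Formula.Realize, BoundedFormula.realize_all,
        BoundedFormula.realize_imp, realize_fR, realize_fE, snoc1, snoc2,
        BoundedFormula.realize_foldr_sup, List.mem_map, List.mem_range]
      simp only [exists_exists_and_eq_and, realize_fR]
      rfl)
    (fun κ σ => (good_Md σ).nm_cl n m)

end Pool.Agent.Lib.MP_76ae7e_lc
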