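import Pool.Agent.Lib.MP_76ae7e_lc.Core

/-!
Every structure satisfying `Good` is isomorphic to a standard structure `Md κ (all signs true)`.
-/

open FirstOrder Cardinal

namespace Pool.Agent.Lib.MP_76ae7e_lc

theorem RelMap_eq {N : Type} [LR.Structure N] (i : ℕ) (v : Fin 2 → N) :
    Language.Structure.RelMap (L := LR) (RelSym.r i) v ↔ R' N i (v 0) (v 1) := by
  unfold R'
  have : v = ![v 0, v 1] := by
    funext j; fin_cases j <;> rfl
  rw [← this]

/-- Build an isomorphism of `LR`-structures from a bijection preserving all `R' i`. -/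
def mkEquiv {N N' : Type} [LR.Structure N] [LR.Structure N'] (e : N ≃ N')
    (he : ∀ i x y, R' N' i (e x) (e y) ↔ R' N i x y) : N ≃[LR] N' where
  toEquiv := e
  map_fun' := fun f _ => Empty.elim f
  map_rel' := by
    rintro n r x
    match r, x with
    | .r i, x => exact (RelMap_eq i _).trans ((he i _ _).trans (RelMap_eq i x).symm)

theorem equiv_R' {N N' : Type} [LR.Structure N] [LR.Structure N'] (e : N ≃[LR] N') (i : ℕ)
    (x y : N) : R' N' i (e x) (e y) ↔ R' N i x y := by
  have := e.map_rel (RelSym.r i) ![x, y]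
  exact (RelMap_eq i (e ∘ ![x, y])).symm.trans this

theorem equiv_E {N N' : Type} [LR.Structure N] [LR.Structure N'] (e : N ≃[LR] N') (n : ℕ)
    (x y : N) : E N' n (e x) (e y) ↔ E N n x y := by
  cases n with
  | zero => exact e.injective.eq_iff
  | succ n => exact equiv_R' e _ x y

/-- The union of all `E n`. -/
def Einf (N : Type) [LR.Structure N] (x y : N) : Prop := ∃ n, E N n x y

/-- `x` is named. -/
def Named (N : Type) [LR.Structure N] (x : N) : Prop := ∃ m, R' N (nm m) x x

namespace Good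

variable {N : Type} [LR.Structure N] (h : Good N)
include h

theorem E_refl (n : ℕ) (x : N) : E N n x x := by
  cases n with
  | zero => rfl
  | succ n => exact h.refl n x

theorem E_symm {n : ℕ} {x y : N} (hxy : E N n x y) : E N n y x := by
  cases n with
  | zero => exact hxy.symm
  | succ n => exact h.symm n x y hxy

theorem E_trans {n : ℕ} {x y z : N} (hxy : E N n x y) (hyz : E N n y z) : E N n x z := by
  cases n with
  | zero => exact hxy.trans hyz
  | succ n => exact h.trans n x y z hxy hyz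

theorem E_le {m n : ℕ} (hmn : m ≤ n) {x y : N} (hxy : E N m x y) : E N n x y := by
  induction n, hmn using Nat.le_induction with
  | base => exact hxy
  | succ n _ ih => exact h.mono n x y ih

omit h in
theorem Einf_refl (x : N) : Einf N x x := ⟨0, rfl⟩

theorem Einf_symm {x y : N} (hxy : Einf N x y) : Einf N y x := by
  obtain ⟨n, hn⟩ := hxy
  exact ⟨n, h.E_symm hn⟩

theorem Einf_trans {x y z : N} (hxy : Einf N x y) (hyz : Einf N y z) : Einf N x z := by
  obtain ⟨n, hn⟩ := hxy
  obtain ⟨m, hm⟩ := hyz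
  exact ⟨max n m, h.E_trans (h.E_le (le_max_left _ _) hn) (h.E_le (le_max_right _ _) hm)⟩

theorem named_of_Einf {x y : N} (hxy : Einf N x y) (hx : Named N x) : Named N y := by
  obtain ⟨n, hn⟩ := hxy
  obtain ⟨m, hm⟩ := hx
  obtain ⟨m', -, hm'⟩ := h.nm_cl n m x y hm (h.mono n x y hn)
  exact ⟨m', hm'⟩

/-- all `E_n`-related setoid -/
def sInf : Setoid N := ⟨Einf N, Einf_refl, h.Einf_symm, h.Einf_trans⟩

/-- level setoid -/
def sE (n : ℕ) : Setoid N := ⟨E N n, h.E_refl n, h.E_symm, h.E_trans⟩

/-- the base point of the component -/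
noncomputable def base (x : N) : N := (Quotient.mk h.sInf x).out

theorem base_rel (x : N) : Einf N x (h.base x) :=
  h.Einf_symm (Quotient.exact (s := h.sInf) (Quotient.out_eq (Quotient.mk h.sInf x)))

theorem base_eq {x y : N} (hxy : Einf N x y) : h.base x = h.base y := by
  unfold base
  rw [show Quotient.mk h.sInf x = Quotient.mk h.sInf y from Quotient.sound hxy]

open Classical in
/-- representative of the `E_{n+1}`-class -/
noncomputable def rp (n : ℕ) (x : N) : N :=
  if E N (n + 1) x (h.base x) then h.base x else (Quotient.mk (h.sE (n + 1)) x).out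

theorem rp_rel (n : ℕ) (x : N) : E N (n + 1) (h.rp n x) x := by
  unfold rp
  split_ifs with h1
  · exact h.E_symm h1
  · exact Quotient.exact (s := h.sE (n + 1)) (Quotient.out_eq (Quotient.mk (h.sE (n + 1)) x))

theorem rp_eq {n : ℕ} {x y : N} (hxy : E N (n + 1) x y) : h.rp n x = h.rp n y := by
  unfold rp
  have h1 : h.base x = h.base y := h.base_eq ⟨_, hxy⟩
  have h2 : Quotient.mk (h.sE (n + 1)) x = Quotient.mk (h.sE (n + 1)) y := Quotient.sound hxy
  rw [h1, h2]
  have h3 : E N (n + 1) x (h.base y) ↔ E N (n + 1) y (h.base y) :=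
    ⟨fun h4 => h.E_trans (h.E_symm hxy) h4, fun h4 => h.E_trans hxy h4⟩
  classical
  by_cases h4 : E N (n + 1) x (h.base y)
  · rw [if_pos h4, if_pos (h3.1 h4)]
  · rw [if_neg h4, if_neg (fun h5 => h4 (h3.2 h5))]

theorem exists_triple (n : ℕ) (r : N) : ∃ y z, Tri N n r y z ∧
    ∀ s b, theta n s = some b → ∀ w w', E N (n + 1) r w →
      (R' N (ps n s) w w' ↔ Cyc N n r y z w w') := by
  by_cases hs : ∃ s b, theta n s = some b
  · obtain ⟨s, b, hs⟩ := hs
    obtain ⟨y, z, h1, h2⟩ := h.cyc n s b hs r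
    refine ⟨y, z, h1, fun s' b' hs' w w' hw => ?_⟩
    rw [h.coh n s' s b' b hs' hs w w']
    exact h2 w w' hw
  · obtain ⟨y, z, h1⟩ := h.tri n r
    exact ⟨y, z, h1, fun s b hsb => absurd ⟨s, b, hsb⟩ hs⟩

/-- second class -/
noncomputable def Y (n : ℕ) (r : N) : N := (h.exists_triple n r).choose
/-- third class -/
noncomputable def Z (n : ℕ) (r : N) : N := (h.exists_triple n r).choose_spec.choose

theorem tri_YZ (n : ℕ) (r : N) : Tri N n r (h.Y n r) (h.Z n r) :=
  (h.exists_triple n r).choose_spec.choose_spec.1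

theorem cyc_YZ (n : ℕ) (r : N) (s : ℕ) (b : Bool) (hb : theta n s = some b) (w w' : N)
    (hw : E N (n + 1) r w) : R' N (ps n s) w w' ↔ Cyc N n r (h.Y n r) (h.Z n r) w w' :=
  (h.exists_triple n r).choose_spec.choose_spec.2 s b hb w w' hw

open Classical in
/-- the digit function -/
noncomputable def d (n : ℕ) (x : N) : ℕ :=
  if E N n (h.rp n x) x then 0 else if E N n (h.Y n (h.rp n x)) x then 1 else 2

theorem d_lt (n : ℕ) (x : N) : h.d n x < 3 := by
  unfold d; split_ifs <;> norm_num

theorem d_zero_iff (n : ℕ) (x : N) : h.d n x = 0 ↔ E N n (h.rp n x) x := by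
  unfold d; split_ifs <;> simp_all

theorem d_one_iff (n : ℕ) (x : N) : h.d n x = 1 ↔ E N n (h.Y n (h.rp n x)) x := by
  unfold d
  split_ifs with h1 h2
  · simp only [false_iff]
    intro h2
    exact (h.tri_YZ n (h.rp n x)).2.2.1 (h.E_trans h1 (h.E_symm h2))
  · simp [h2]
  · simp [h2]

theorem d_two_iff (n : ℕ) (x : N) : h.d n x = 2 ↔ E N n (h.Z n (h.rp n x)) x := by
  unfold d
  obtain ⟨h1, h2, h3, h4, h5, h6⟩ := h.tri_YZ n (h.rp n x)
  split_ifs with h7 h8
  · simp only [false_iff]
    intro h9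
    exact h5 (h.E_trans h7 (h.E_symm h9))
  · simp only [OfNat.one_ne_ofNat, false_iff]
    intro h9
    exact h4 (h.E_trans h8 (h.E_symm h9))
  · simp only [true_iff]
    rcases h6 x (h.rp_rel n x) with h9 | h9 | h9
    · exact absurd h9 h7
    · exact absurd h9 h8
    · exact h9

theorem D1 {n : ℕ} {x y : N} (hxy : E N (n + 1) x y) : h.d n x = h.d n y ↔ E N n x y := by
  have hr := h.rp_eq hxy
  constructor
  · intro hd
    have h3 := h.d_lt n x
    have hcases : h.d n x = 0 ∨ h.d n x = 1 ∨ h.d n x = 2 := by omega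
    rcases hcases with h0 | h0 | h0
    · have h1 := (h.d_zero_iff n x).1 h0
      have h2 := (h.d_zero_iff n y).1 (hd ▸ h0)
      rw [← hr] at h2
      exact h.E_trans (h.E_symm h1) h2
    · have h1 := (h.d_one_iff n x).1 h0
      have h2 := (h.d_one_iff n y).1 (hd ▸ h0)
      rw [← hr] at h2
      exact h.E_trans (h.E_symm h1) h2
    · have h1 := (h.d_two_iff n x).1 h0
      have h2 := (h.d_two_iff n y).1 (hd ▸ h0)
      rw [← hr] at h2
      exact h.E_trans (h.E_symm h1) h2
  · intro he
    have key : ∀ w, E N n w x ↔ E N n w y := fun w =>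
      ⟨fun h1 => h.E_trans h1 he, fun h1 => h.E_trans h1 (h.E_symm he)⟩
    unfold d
    rw [← hr]
    classical
    by_cases h4 : E N n (h.rp n x) x
    · rw [if_pos h4, if_pos ((key _).1 h4)]
    · rw [if_neg h4, if_neg (fun h5 => h4 ((key _).2 h5))]
      by_cases h6 : E N n (h.Y n (h.rp n x)) x
      · rw [if_pos h6, if_pos ((key _).1 h6)]
      · rw [if_neg h6, if_neg (fun h5 => h6 ((key _).2 h5))]

theorem D2 (n : ℕ) (x : N) {a : ℕ} (ha : a < 3) : ∃ y, E N (n + 1) x y ∧ h.d n y = a := by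
  obtain ⟨h1, h2, h3, h4, h5, h6⟩ := h.tri_YZ n (h.rp n x)
  have hrx := h.rp_rel n x
  have hcases : a = 0 ∨ a = 1 ∨ a = 2 := by omega
  rcases hcases with rfl | rfl | rfl
  · refine ⟨h.rp n x, h.E_symm hrx, ?_⟩
    rw [d_zero_iff, ← h.rp_eq (h.E_symm hrx)]
    exact h.E_refl n _
  · have h7 : E N (n + 1) x (h.Y n (h.rp n x)) := h.E_trans (h.E_symm hrx) h1
    refine ⟨_, h7, ?_⟩
    rw [d_one_iff, ← h.rp_eq h7]
    exact h.E_refl n _
  · have h7 : E N (n + 1) x (h.Z n (h.rp n x)) := h.E_trans (h.E_symm hrx) h2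
    refine ⟨_, h7, ?_⟩
    rw [d_two_iff, ← h.rp_eq h7]
    exact h.E_refl n _

theorem D3 {n s : ℕ} {b : Bool} (hb : theta n s = some b) (x y : N) :
    R' N (ps n s) x y ↔ E N (n + 1) x y ∧ h.d n y = (h.d n x + 1) % 3 := by
  constructor
  · intro hR
    have hxy := h.sub n s x y hR
    refine ⟨hxy, ?_⟩
    have hr := h.rp_eq hxy
    have hc := (h.cyc_YZ n (h.rp n x) s b hb x y (h.rp_rel n x)).1 hR
    rcases hc with ⟨h1, h2⟩ | ⟨h1, h2⟩ | ⟨h1, h2⟩
    · rw [(h.d_zero_iff n x).2 h1]
      rw [hr] at h2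
      rw [(h.d_one_iff n y).2 h2]
    · rw [(h.d_one_iff n x).2 h1]
      rw [hr] at h2
      rw [(h.d_two_iff n y).2 h2]
    · rw [(h.d_two_iff n x).2 h1]
      rw [hr] at h2
      rw [(h.d_zero_iff n y).2 h2]
  · rintro ⟨hxy, hd⟩
    have hr := h.rp_eq hxy
    refine (h.cyc_YZ n (h.rp n x) s b hb x y (h.rp_rel n x)).2 ?_
    have h3 := h.d_lt n x
    have hcases : h.d n x = 0 ∨ h.d n x = 1 ∨ h.d n x = 2 := by omega
    rcases hcases with h0 | h0 | h0
    · left
      refine ⟨(h.d_zero_iff n x).1 h0, ?_⟩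
      rw [hr]
      exact (h.d_one_iff n y).1 (by rw [hd, h0])
    · right; left
      refine ⟨(h.d_one_iff n x).1 h0, ?_⟩
      rw [hr]
      exact (h.d_two_iff n y).1 (by rw [hd, h0])
    · right; right
      refine ⟨(h.d_two_iff n x).1 h0, ?_⟩
      rw [hr]
      exact (h.d_zero_iff n y).1 (by rw [hd, h0])

theorem base_base (x : N) : h.base (h.base x) = h.base x :=
  (h.base_eq (h.base_rel x)).symm

theorem D4 (n : ℕ) (x : N) : h.d n (h.base x) = 0 := by
  rw [d_zero_iff]
  have : h.rp n (h.base x) = h.base x := by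
    unfold rp
    rw [h.base_base, if_pos (h.E_refl _ _)]
  rw [this]
  exact h.E_refl n _

open Classical in
/-- a level at which `x` is related to its base point -/
noncomputable def K (x : N) : ℕ := Nat.find (h.base_rel x)

theorem K_spec (x : N) : E N (h.K x) x (h.base x) := by
  classical
  exact Nat.find_spec (h.base_rel x)

theorem d_vanish {n : ℕ} {x : N} (hx : E N n x (h.base x)) : h.d n x = 0 := by
  have h1 : h.d n x = h.d n (h.base x) := (h.D1 (h.mono n _ _ hx)).2 hx
  rw [h1, h.D4]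

/-- the numbers attached to the tails of the digit sequence -/
noncomputable def F (m : ℕ) (x : N) : ℕ := ∑ k ∈ Finset.range (h.K x), h.d (m + k) x * 3 ^ k

theorem F_rec (m : ℕ) (x : N) : h.F m x = h.d m x + 3 * h.F (m + 1) x := by
  have h1 : ∑ k ∈ Finset.range (h.K x + 1), h.d (m + k) x * 3 ^ k = h.F m x := by
    rw [Finset.sum_range_succ, h.d_vanish (h.E_le (Nat.le_add_left _ _) (h.K_spec x))]
    simp [F]
  rw [← h1, Finset.sum_range_succ']
  simp only [add_zero, pow_zero, mul_one]
  rw [add_comm]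
  congr 1
  unfold F
  rw [Finset.mul_sum]
  refine Finset.sum_congr rfl fun k _ => ?_
  rw [show m + (k + 1) = m + 1 + k by ring, pow_succ]
  ring

theorem F_mod (m : ℕ) (x : N) : h.F m x % 3 = h.d m x := by
  have := h.d_lt m x
  rw [h.F_rec]; omega

theorem F_div (m : ℕ) (x : N) : h.F m x / 3 = h.F (m + 1) x := by
  have := h.d_lt m x
  rw [h.F_rec m]; omega

theorem F0_div (m : ℕ) (x : N) : h.F 0 x / 3 ^ m = h.F m x := by
  induction m with
  | zero => simp
  | succ m ih => rw [div_pow_succ, ih, h.F_div]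

theorem dig_F (m : ℕ) (x : N) : dig m (h.F 0 x) = h.d m x := by
  unfold dig; rw [h.F0_div, h.F_mod]

theorem F_vanish {m : ℕ} {x : N} (hx : E N m x (h.base x)) : h.F m x = 0 := by
  unfold F
  refine Finset.sum_eq_zero fun k _ => ?_
  rw [h.d_vanish (h.E_le (Nat.le_add_right m k) hx), zero_mul]

theorem F_eq_iff {x y : N} (hxy : Einf N x y) (m : ℕ) : h.F m x = h.F m y ↔ E N m x y := by
  have hb := h.base_eq hxy
  -- top level
  obtain ⟨k, hk1, hk2, hk3⟩ : ∃ k, m ≤ k ∧ E N k x (h.base x) ∧ E N k y (h.base y) :=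
    ⟨max m (max (h.K x) (h.K y)), le_max_left _ _,
      h.E_le (le_trans (le_max_left _ _) (le_max_right _ _)) (h.K_spec x),
      h.E_le (le_trans (le_max_right _ _) (le_max_right _ _)) (h.K_spec y)⟩
  have htop : h.F k x = h.F k y ↔ E N k x y := by
    rw [h.F_vanish hk2, h.F_vanish hk3]
    simp only [true_iff]
    rw [← hb] at hk3
    exact h.E_trans hk2 (h.E_symm hk3)
  clear hk2 hk3
  induction k, hk1 using Nat.le_induction with
  | base => exact htop
  | succ k _ ih =>
    apply ih
    rw [h.F_rec k x, h.F_rec k y]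
    have h1 := h.d_lt k x
    have h2 := h.d_lt k y
    constructor
    · intro h3
      have h4 : h.F (k + 1) x = h.F (k + 1) y := by omega
      have h5 : h.d k x = h.d k y := by omega
      exact (h.D1 (htop.1 h4)).1 h5
    · intro h3
      have h4 := h.mono k _ _ h3
      rw [htop.2 h4, (h.D1 h4).2 h3]

theorem F_congr {m : ℕ} {x y : N} (hxy : E N m x y) : h.F m x = h.F m y :=
  (h.F_eq_iff ⟨m, hxy⟩ m).2 hxy

theorem F_surj (t : ℕ) : ∀ (m : ℕ) (b : N), ∃ x, Einf N b x ∧ h.F m x = t := by
  induction t using Nat.strong_induction_on with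
  | _ t ih =>
    intro m b
    rcases Nat.eq_zero_or_pos t with rfl | ht
    · refine ⟨h.base b, h.base_rel b, h.F_vanish ?_⟩
      rw [h.base_base]
      exact h.E_refl m _
    · obtain ⟨x', hx', hF⟩ := ih (t / 3) (Nat.div_lt_self ht (by norm_num)) (m + 1) b
      obtain ⟨x, hx, hd⟩ := h.D2 m x' (a := t % 3) (Nat.mod_lt _ (by norm_num))
      refine ⟨x, h.Einf_trans hx' ⟨_, hx⟩, ?_⟩
      rw [h.F_rec, hd, ← h.F_congr hx, hF]
      omega

/-- index set of the unnamed components -/
def Comp : Type := {q : Quotient h.sInf // ∀ x, Quotient.mk h.sInf x = q → ¬ Named N x}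

theorem named_iff_of_mk {x y : N} (hxy : Quotient.mk h.sInf x = Quotient.mk h.sInf y) :
    Named N x ↔ Named N y := by
  have h1 : Einf N x y := Quotient.exact hxy
  exact ⟨h.named_of_Einf h1, h.named_of_Einf (h.Einf_symm h1)⟩

open Classical in
/-- the map to the standard structure -/
noncomputable def toMd (x : N) : Md h.Comp (fun _ _ => true) :=
  if hx : Named N x then ⟨none, hx.choose⟩
  else ⟨some ⟨Quotient.mk h.sInf x, fun _ hy hny => hx ((h.named_iff_of_mk hy).1 hny)⟩, h.F 0 x⟩

theorem toMd_named {x : N} {m : ℕ} (hx : R' N (nm m) x x) : h.toMd x = ⟨none, m⟩ := by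
  have hn : Named N x := ⟨m, hx⟩
  unfold toMd
  rw [dif_pos hn]
  have h1 := hn.choose_spec
  have h2 : hn.choose = m := by
    have h3 := (h.nm_rel (nm m) hn.choose m x x h1 hx).1 hx
    rw [rel_nm] at h3
    exact (Md.ext_iff.1 h3.1).2
  rw [h2]

theorem toMd_none_iff (x : N) : (h.toMd x).c = none ↔ Named N x := by
  unfold toMd
  split_ifs with hx <;> simp [hx]

theorem toMd_unnamed_c {x y : N} (hx : ¬ Named N x) (hy : ¬ Named N y) :
    (h.toMd x).c = (h.toMd y).c ↔ Einf N x y := by
  unfold toMd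
  rw [dif_neg hx, dif_neg hy]
  constructor
  · intro h1
    exact Quotient.exact (s := h.sInf) (congrArg Subtype.val (Option.some.inj h1))
  · intro h1
    exact congrArg some (Subtype.ext (Quotient.sound (s := h.sInf) h1))

theorem toMd_unnamed_v {x : N} (hx : ¬ Named N x) : (h.toMd x).v = h.F 0 x := by
  unfold toMd
  rw [dif_neg hx]

theorem toMd_injective : Function.Injective h.toMd := by
  intro x y hxy
  by_cases hx : Named N x
  · have hy : Named N y := by rw [← h.toMd_none_iff, ← hxy, h.toMd_none_iff]; exact hx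
    obtain ⟨m, hm⟩ := hx
    obtain ⟨m', hm'⟩ := hy
    rw [h.toMd_named hm, h.toMd_named hm'] at hxy
    have : m = m' := (Md.ext_iff.1 hxy).2
    subst this
    exact h.nm_uniq m x y hm hm'
  · have hy : ¬ Named N y := by rw [← h.toMd_none_iff, ← hxy, h.toMd_none_iff]; exact hx
    have h1 : Einf N x y := (h.toMd_unnamed_c hx hy).1 (by rw [hxy])
    have h2 : h.F 0 x = h.F 0 y := by
      rw [← h.toMd_unnamed_v hx, ← h.toMd_unnamed_v hy, hxy]
    exact (h.F_eq_iff h1 0).1 h2

theorem toMd_surjective : Function.Surjective h.toMd := by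
  rintro ⟨c, v⟩
  cases c with
  | none =>
    obtain ⟨x, hx⟩ := h.nm_ex v
    exact ⟨x, h.toMd_named hx⟩
  | some q =>
    obtain ⟨q, hq⟩ := q
    obtain ⟨b, rfl⟩ := Quotient.exists_rep q
    have hb : ¬ Named N b := hq b rfl
    obtain ⟨x, hx, hF⟩ := h.F_surj v 0 b
    have hx' : ¬ Named N x := fun hn => hb (h.named_of_Einf (h.Einf_symm hx) hn)
    refine ⟨x, ?_⟩
    unfold toMd
    rw [dif_neg hx']
    refine Md.ext ?_ hF
    exact congrArg some (Subtype.ext (Quotient.sound (s := h.sInf) (h.Einf_symm hx)))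

theorem R'_named_iff {i : ℕ} {x y : N} (hR : R' N i x y) : Named N x ↔ Named N y := by
  rcases idx_cases i with ⟨m, rfl⟩ | ⟨n, s, rfl⟩
  · rw [h.nm_eq m x y hR]
  · have h1 : Einf N x y := ⟨_, h.sub n s x y hR⟩
    exact ⟨h.named_of_Einf h1, h.named_of_Einf (h.Einf_symm h1)⟩

omit [LR.Structure N] h in
theorem rel_none {κ : Type} (i m m' : ℕ) :
    rel (κ := κ) (σ := fun _ _ => true) i ⟨none, m⟩ ⟨none, m'⟩ ↔
      rel (κ := Empty) (σ := fun _ _ => true) i ⟨none, m⟩ ⟨none, m'⟩ := by
  rcases idx_cases i with ⟨k, rfl⟩ | ⟨n, s, rfl⟩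
  · simp only [rel_nm, Md.mk.injEq, true_and]
  · simp only [rel_ps, true_and]; rfl

theorem toMd_rel (i : ℕ) (x y : N) : rel i (h.toMd x) (h.toMd y) ↔ R' N i x y := by
  by_cases hx : Named N x
  · by_cases hy : Named N y
    · obtain ⟨m, hm⟩ := hx
      obtain ⟨m', hm'⟩ := hy
      rw [h.toMd_named hm, h.toMd_named hm', h.nm_rel i m m' x y hm hm']
      exact rel_none i m m'
    · constructor
      · intro h1
        exfalso
        have h2 : (h.toMd x).c = (h.toMd y).c := by
          rcases idx_cases i with ⟨k, rfl⟩ | ⟨n, s, rfl⟩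
          · rw [rel_nm] at h1; rw [h1.1, h1.2]
          · rw [rel_ps] at h1; exact h1.1
        rw [(h.toMd_none_iff x).2 hx] at h2
        exact hy ((h.toMd_none_iff y).1 h2.symm)
      · intro h1
        exact absurd ((h.R'_named_iff h1).1 hx) hy
  · by_cases hy : Named N y
    · constructor
      · intro h1
        exfalso
        have h2 : (h.toMd x).c = (h.toMd y).c := by
          rcases idx_cases i with ⟨k, rfl⟩ | ⟨n, s, rfl⟩
          · rw [rel_nm] at h1; rw [h1.1, h1.2]
          · rw [rel_ps] at h1; exact h1.1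
        rw [(h.toMd_none_iff y).2 hy] at h2
        exact hx ((h.toMd_none_iff x).1 h2)
      · intro h1
        exact absurd ((h.R'_named_iff h1).2 hy) hx
    · rcases idx_cases i with ⟨m, rfl⟩ | ⟨n, s, rfl⟩
      · constructor
        · intro h1
          rw [rel_nm] at h1
          exact absurd ((h.toMd_none_iff x).1 (by rw [h1.1])) hx
        · intro h1
          have h2 := h.nm_eq m x y h1
          subst h2
          exact absurd ⟨m, h1⟩ hx
      · rw [rel_ps, h.toMd_unnamed_c hx hy, h.toMd_unnamed_v hx, h.toMd_unnamed_v hy]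
        unfold PR
        rw [h.F0_div, h.F0_div, h.dig_F, h.dig_F]
        have hstp : ∀ b, stp (ext (fun (_ : h.Comp) (_ : Bool) => true) (h.toMd x).c b) = 1 := by
          intro b
          cases (h.toMd x).c <;> rfl
        simp only [hstp]
        cases hth : theta n s with
        | none =>
          rw [h.undef n s hth x y]
          constructor
          · rintro ⟨h1, h2, -⟩
            exact (h.F_eq_iff h1 (n + 1)).1 h2
          · intro h1
            exact ⟨⟨_, h1⟩, h.F_congr h1, by simp⟩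
        | some b =>
          rw [h.D3 hth x y]
          constructor
          · rintro ⟨h1, h2, h3⟩
            exact ⟨(h.F_eq_iff h1 (n + 1)).1 h2, h3 b rfl⟩
          · rintro ⟨h1, h2⟩
            exact ⟨⟨_, h1⟩, h.F_congr h1, fun _ _ => h2⟩

/-- The classification isomorphism. -/
noncomputable def iso : N ≃[LR] Md h.Comp (fun _ _ => true) :=
  mkEquiv (Equiv.ofBijective h.toMd ⟨h.toMd_injective, h.toMd_surjective⟩) h.toMd_rel

end Good

/-- Reindexing the unnamed copies. -/
def reindex {κ κ' : Type} (e : κ ≃ κ') :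
    Md κ (fun _ _ => true) ≃[LR] Md κ' (fun _ _ => true) :=
  mkEquiv
    { toFun := fun a => ⟨a.c.map e, a.v⟩
      invFun := fun a => ⟨a.c.map e.symm, a.v⟩
      left_inv := fun a => by ext1 <;> simp
      right_inv := fun a => by ext1 <;> simp }
    (by
      intro i x y
      rw [R'_Md, R'_Md]
      have hinj : Function.Injective (Option.map e) := Option.map_injective e.injective
      rcases idx_cases i with ⟨m, rfl⟩ | ⟨n, s, rfl⟩
      · simp only [rel_nm, Md.ext_iff, Equiv.coe_fn_mk, Option.map_eq_none_iff]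
      · simp only [rel_ps, Equiv.coe_fn_mk]
        rw [hinj.eq_iff]
        have h1 : ext (fun (_ : κ') (_ : Bool) => true) (Option.map (⇑e) x.c) =
            ext (fun (_ : κ) (_ : Bool) => true) x.c := by
          funext b; cases x.c <;> rfl
        rw [h1])

end Pool.Agent.Lib.MP_76ae7e_lc
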