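import Pool.Agent.Lib.MP_76ae7e_lc.Defs

/-!
The structures `Md κ σ`: one named copy of `ℕ` and `κ` many unnamed copies.
-/

open FirstOrder Cardinal

namespace Pool.Agent.Lib.MP_76ae7e_lc

open Nat.Partrec (Code)

/-- Stage `s` approximation of a partial computable `{0,1}`-valued function with no total
computable extension. -/
def theta (n s : ℕ) : Option Bool :=
  (Code.evaln s (Denumerable.ofNat Code n) n).map (fun v => v == 0)

theorem theta_zero (n : ℕ) : theta n 0 = none := by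
  simp [theta, Code.evaln]

theorem theta_coh {n s s' : ℕ} {b b' : Bool} (h : theta n s = some b) (h' : theta n s' = some b') :
    b = b' := by
  unfold theta at h h'
  rw [Option.map_eq_some_iff] at h h'
  obtain ⟨v, hv, rfl⟩ := h
  obtain ⟨v', hv', rfl⟩ := h'
  have h1 := Code.evaln_sound hv
  have h2 := Code.evaln_sound hv'
  have := Part.mem_unique h1 h2
  rw [this]

theorem theta_primrec : Primrec₂ theta := by
  unfold theta
  refine Primrec.option_map ?_ ?_
  · have := Code.primrec_evaln.comp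
      (Primrec.pair (Primrec.pair (Primrec.snd (α := ℕ) (β := ℕ))
        ((Primrec.ofNat Code).comp (Primrec.fst (α := ℕ) (β := ℕ))))
        (Primrec.fst (α := ℕ) (β := ℕ)))
    exact this
  · exact (Primrec.beq.comp Primrec.snd (Primrec.const 0)).to₂

theorem theta_insep : ¬ ∃ f : ℕ → Bool, Computable f ∧ ∀ n s b, theta n s = some b → f n = b := by
  rintro ⟨f, hf, h⟩
  have hg : Computable (fun n => cond (f n) 1 0 : ℕ → ℕ) :=
    Computable.cond hf (Computable.const 1) (Computable.const 0)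
  have hg' : Nat.Partrec (fun n => (Part.some (cond (f n) 1 0) : Part ℕ)) :=
    Partrec.nat_iff.1 hg
  obtain ⟨c, hc⟩ := Code.exists_code.1 hg'
  have h1 : cond (f (Encodable.encode c)) 1 0 ∈ Code.eval c (Encodable.encode c) := by
    rw [hc]; simp
  obtain ⟨k, hk⟩ := Code.evaln_complete.1 h1
  have h2 : theta (Encodable.encode c) k = some ((cond (f (Encodable.encode c)) 1 0 : ℕ) == 0) := by
    unfold theta
    rw [Denumerable.ofNat_encode]
    rw [Option.mem_def] at hk
    rw [hk]; rfl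
  have h3 := h _ _ _ h2
  cases hfc : f (Encodable.encode c) <;> rw [hfc] at h3 <;> simp at h3

/-- The `n`-th ternary digit. -/
def dig (n x : ℕ) : ℕ := x / 3 ^ n % 3

/-- The rotation attached to a sign. -/
def stp (b : Bool) : ℕ := cond b 1 2

/-- The basic relation at level `n`, stage `s`, with sign function `τ`. -/
def PR (τ : Bool → Bool) (n s x y : ℕ) : Prop :=
  x / 3 ^ (n + 1) = y / 3 ^ (n + 1) ∧
    ∀ b, theta n s = some b → dig n y = (dig n x + stp (τ b)) % 3

/-- Extension of a sign function to the named copy, where the sign is `true`. -/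
def ext {κ : Type} (σ : κ → Bool → Bool) : Option κ → Bool → Bool
  | none, _ => true
  | some k, b => σ k b

/-- Universe of the structure: elements `⟨c, v⟩`, with `c = none` for the named copy. -/
@[ext] structure Md (κ : Type) (σ : κ → Bool → Bool) where
  /-- the copy -/
  c : Option κ
  /-- the position in the copy -/
  v : ℕ

/-- The binary relation number `i`. -/
def rel {κ : Type} {σ : κ → Bool → Bool} (i : ℕ) (a b : Md κ σ) : Prop :=
  if i % 2 = 0 then a = ⟨none, i / 2⟩ ∧ b = ⟨none, i / 2⟩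
  else a.c = b.c ∧ PR (ext σ a.c) (Nat.unpair (i / 2)).1 (Nat.unpair (i / 2)).2 a.v b.v

instance {κ : Type} (σ : κ → Bool → Bool) : LR.Structure (Md κ σ) where
  funMap := fun f _ => Empty.elim f
  RelMap := fun {_} R v => match R, v with
    | .r i, v => rel i (v 0) (v 1)

instance {κ : Type} (σ : κ → Bool → Bool) : Nonempty (Md κ σ) := ⟨⟨none, 0⟩⟩

/-- Relation number `i` in an arbitrary structure. -/
def R' (N : Type) [LR.Structure N] (i : ℕ) (x y : N) : Prop :=
  Language.Structure.RelMap (L := LR) (RelSym.r i) ![x, y]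

theorem R'_Md {κ : Type} (σ : κ → Bool → Bool) (i : ℕ) (x y : Md κ σ) :
    R' (Md κ σ) i x y ↔ rel i x y := Iff.rfl

/-- index of the naming relation -/
def nm (m : ℕ) : ℕ := 2 * m
/-- index of the level relation -/
def ps (n s : ℕ) : ℕ := 2 * Nat.pair n s + 1

theorem rel_nm {κ : Type} {σ : κ → Bool → Bool} (m : ℕ) (a b : Md κ σ) :
    rel (nm m) a b ↔ a = ⟨none, m⟩ ∧ b = ⟨none, m⟩ := by
  unfold rel nm
  have h1 : 2 * m % 2 = 0 := by omega
  have h2 : 2 * m / 2 = m := by omega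
  simp [h1, h2]

theorem rel_ps {κ : Type} {σ : κ → Bool → Bool} (n s : ℕ) (a b : Md κ σ) :
    rel (ps n s) a b ↔ a.c = b.c ∧ PR (ext σ a.c) n s a.v b.v := by
  unfold rel ps
  have h1 : (2 * Nat.pair n s + 1) % 2 = 1 := by omega
  have h2 : (2 * Nat.pair n s + 1) / 2 = Nat.pair n s := by omega
  simp [h1, h2]

theorem idx_cases (i : ℕ) : (∃ m, i = nm m) ∨ ∃ n s, i = ps n s := by
  rcases Nat.even_or_odd' i with ⟨c, h | h⟩
  · exact Or.inl ⟨c, h⟩
  · refine Or.inr ⟨(Nat.unpair c).1, (Nat.unpair c).2, ?_⟩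
    unfold ps; rw [Nat.pair_unpair]; exact h

/-- The relation `E_n` in an arbitrary structure. -/
def E (N : Type) [LR.Structure N] : ℕ → N → N → Prop
  | 0, x, y => x = y
  | n + 1, x, y => R' N (ps n 0) x y

/-- `x, y, z` represent the three `E_n`-classes in an `E_{n+1}`-class. -/
def Tri (N : Type) [LR.Structure N] (n : ℕ) (x y z : N) : Prop :=
  E N (n + 1) x y ∧ E N (n + 1) x z ∧ ¬ E N n x y ∧ ¬ E N n y z ∧ ¬ E N n x z ∧
    ∀ w, E N (n + 1) x w → (E N n x w ∨ E N n y w ∨ E N n z w)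

/-- cyclic orientation -/
def Cyc (N : Type) [LR.Structure N] (n : ℕ) (x y z w w' : N) : Prop :=
  (E N n x w ∧ E N n y w') ∨ (E N n y w ∧ E N n z w') ∨ (E N n z w ∧ E N n x w')

/-- The abstract list of first-order properties used for the classification of models. -/
structure Good (N : Type) [LR.Structure N] : Prop where
  refl : ∀ n x, E N (n + 1) x x
  symm : ∀ n x y, E N (n + 1) x y → E N (n + 1) y x
  trans : ∀ n x y z, E N (n + 1) x y → E N (n + 1) y z → E N (n + 1) x z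
  mono : ∀ n x y, E N n x y → E N (n + 1) x y
  tri : ∀ n x, ∃ y z, Tri N n x y z
  undef : ∀ n s, theta n s = none → ∀ x y, (R' N (ps n s) x y ↔ E N (n + 1) x y)
  sub : ∀ n s x y, R' N (ps n s) x y → E N (n + 1) x y
  cyc : ∀ n s b, theta n s = some b → ∀ x, ∃ y z, Tri N n x y z ∧
    ∀ w w', E N (n + 1) x w → (R' N (ps n s) w w' ↔ Cyc N n x y z w w')
  coh : ∀ n s s' b b', theta n s = some b → theta n s' = some b' →
    ∀ x y, (R' N (ps n s) x y ↔ R' N (ps n s') x y)
  nm_eq : ∀ m x y, R' N (nm m) x y → x = y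
  nm_ex : ∀ m, ∃ x, R' N (nm m) x x
  nm_uniq : ∀ m x y, R' N (nm m) x x → R' N (nm m) y y → x = y
  nm_rel : ∀ i m m' x y, R' N (nm m) x x → R' N (nm m') y y →
    (R' N i x y ↔ rel (κ := Empty) (σ := fun _ _ => true) i ⟨none, m⟩ ⟨none, m'⟩)
  nm_cl : ∀ n m x y, R' N (nm m) x x → E N (n + 1) x y →
    ∃ m' < 3 ^ (n + 1) * (m + 1), R' N (nm m') y y

section mdgood

variable {κ : Type} (σ : κ → Bool → Bool)

theorem E_Md (n : ℕ) (x y : Md κ σ) :
    E (Md κ σ) n x y ↔ x.c = y.c ∧ x.v / 3 ^ n = y.v / 3 ^ n := by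
  cases n with
  | zero => simp only [E, pow_zero, Nat.div_one]; exact Md.ext_iff
  | succ n =>
    simp only [E, R'_Md, rel_ps, PR, theta_zero]
    simp

theorem div_pow_succ (x n : ℕ) : x / 3 ^ (n + 1) = x / 3 ^ n / 3 := by
  rw [pow_succ, Nat.div_div_eq_div_mul]

/-- replace digit `n` of `x` by `a` (and forget the lower digits) -/
def setd (n a x : ℕ) : ℕ := (x / 3 ^ (n + 1) * 3 + a) * 3 ^ n

theorem setd_div (n a x : ℕ) (_ha : a < 3) : setd n a x / 3 ^ n = x / 3 ^ (n + 1) * 3 + a := by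
  unfold setd
  exact Nat.mul_div_cancel _ (by positivity)

theorem setd_div_succ (n a x : ℕ) (ha : a < 3) : setd n a x / 3 ^ (n + 1) = x / 3 ^ (n + 1) := by
  rw [div_pow_succ, setd_div n a x ha]; omega

theorem dig_setd (n a x : ℕ) (ha : a < 3) : dig n (setd n a x) = a := by
  unfold dig; rw [setd_div n a x ha]; omega

theorem div_eq_iff_dig (n x y : ℕ) :
    x / 3 ^ n = y / 3 ^ n ↔ x / 3 ^ (n + 1) = y / 3 ^ (n + 1) ∧ dig n x = dig n y := by
  unfold dig; rw [div_pow_succ, div_pow_succ]; omega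

theorem dig_lt (n x : ℕ) : dig n x < 3 := Nat.mod_lt _ (by norm_num)

/-- The triple built from a rotation `t ∈ {1,2}`. -/
theorem tri_Md (n t : ℕ) (ht : t = 1 ∨ t = 2) (x : Md κ σ) :
    ∃ y z : Md κ σ, Tri (Md κ σ) n x y z ∧ y.c = x.c ∧ z.c = x.c ∧
      dig n y.v = (dig n x.v + t) % 3 ∧ dig n z.v = (dig n x.v + 2 * t) % 3 := by
  have hx := dig_lt n x.v
  have h1 : (dig n x.v + t) % 3 < 3 := Nat.mod_lt _ (by norm_num)
  have h2 : (dig n x.v + 2 * t) % 3 < 3 := Nat.mod_lt _ (by norm_num)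
  refine ⟨⟨x.c, setd n ((dig n x.v + t) % 3) x.v⟩, ⟨x.c, setd n ((dig n x.v + 2 * t) % 3) x.v⟩,
    ?_, rfl, rfl, dig_setd _ _ _ h1, dig_setd _ _ _ h2⟩
  unfold Tri
  simp only [E_Md, setd_div_succ _ _ _ h1, setd_div_succ _ _ _ h2, true_and]
  refine ⟨?_, ?_, ?_, ?_⟩
  · rw [div_eq_iff_dig, dig_setd _ _ _ h1, setd_div_succ _ _ _ h1]
    rintro ⟨-, h⟩; rcases ht with rfl | rfl <;> omega
  · rw [div_eq_iff_dig, dig_setd _ _ _ h1, dig_setd _ _ _ h2]
    rintro ⟨-, h⟩; rcases ht with rfl | rfl <;> omega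
  · rw [div_eq_iff_dig, dig_setd _ _ _ h2, setd_div_succ _ _ _ h2]
    rintro ⟨-, h⟩; rcases ht with rfl | rfl <;> omega
  · rintro w ⟨hw1, hw2⟩
    have hw := dig_lt n w.v
    rw [div_eq_iff_dig n x.v, div_eq_iff_dig n (setd _ _ _), div_eq_iff_dig n (setd _ _ _),
      dig_setd _ _ _ h1, dig_setd _ _ _ h2, setd_div_succ _ _ _ h1, setd_div_succ _ _ _ h2]
    simp only [hw1, hw2, true_and]
    rcases ht with rfl | rfl <;> omega

theorem good_Md : Good (Md κ σ) where
  refl n x := by simp [E_Md]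
  symm n x y := by simp only [E_Md]; exact fun h => ⟨h.1.symm, h.2.symm⟩
  trans n x y z := by
    simp only [E_Md]; exact fun h h' => ⟨h.1.trans h'.1, h.2.trans h'.2⟩
  mono n x y := by
    simp only [E_Md]
    rintro ⟨h1, h2⟩
    refine ⟨h1, ?_⟩
    rw [div_pow_succ, div_pow_succ, h2]
  tri n x := by
    obtain ⟨y, z, h, -⟩ := tri_Md σ n 1 (Or.inl rfl) x
    exact ⟨y, z, h⟩
  undef n s hs x y := by
    rw [E_Md, R'_Md, rel_ps]
    simp [PR, hs]
  sub n s x y := by
    rw [E_Md, R'_Md, rel_ps]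
    exact fun h => ⟨h.1, h.2.1⟩
  cyc n s b hb x := by
    obtain ⟨y, z, h, hy1, hz1, hy, hz⟩ := tri_Md σ n (stp (ext σ x.c b))
      (by cases ext σ x.c b <;> simp [stp]) x
    refine ⟨y, z, h, fun w w' hw => ?_⟩
    obtain ⟨hxy, hxz, -⟩ := h
    rw [R'_Md, rel_ps]
    unfold Cyc PR
    simp only [hb, Option.some.injEq, forall_eq']
    rw [E_Md] at hw hxy hxz
    have hst : stp (ext σ x.c b) = 1 ∨ stp (ext σ x.c b) = 2 := by
      cases ext σ x.c b <;> simp [stp]
    have hst' : ext σ w.c b = ext σ x.c b := by rw [hw.1]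
    rw [hst']
    generalize stp (ext σ x.c b) = t at hst hy hz
    simp only [E_Md, div_eq_iff_dig n, hy, hz, hy1, hz1, hw.1, ← hw.2, ← hxy.2, ← hxz.2, true_and]
    have hx := dig_lt n x.v
    have hw1 := dig_lt n w.v
    have hw2 := dig_lt n w'.v
    rcases hst with rfl | rfl <;> constructor
    · rintro ⟨h1, h2, h3⟩
      simp only [h1, h2, true_and]
      omega
    · rintro (⟨h1, h2, h3, h4⟩ | ⟨h1, h2, h3, h4⟩ | ⟨h1, h2, h3, h4⟩) <;>
        refine ⟨h2, h3, ?_⟩ <;> omega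
    · rintro ⟨h1, h2, h3⟩
      simp only [h1, h2, true_and]
      omega
    · rintro (⟨h1, h2, h3, h4⟩ | ⟨h1, h2, h3, h4⟩ | ⟨h1, h2, h3, h4⟩) <;>
        refine ⟨h2, h3, ?_⟩ <;> omega
  coh n s s' b b' h h' x y := by
    have hbb := theta_coh h h'
    subst hbb
    simp only [R'_Md, rel_ps, PR, h, h']
  nm_eq m x y := by
    rw [R'_Md, rel_nm]; exact fun h => h.1.trans h.2.symm
  nm_ex m := ⟨⟨none, m⟩, by rw [R'_Md, rel_nm]; exact ⟨rfl, rfl⟩⟩
  nm_uniq m x y := by
    simp only [R'_Md, rel_nm]; exact fun h h' => h.1.trans h'.1.symm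
  nm_rel i m m' x y := by
    simp only [R'_Md, rel_nm]
    rintro ⟨rfl, -⟩ ⟨rfl, -⟩
    rcases idx_cases i with ⟨k, rfl⟩ | ⟨n, s, rfl⟩
    · simp only [rel_nm, Md.mk.injEq, true_and]
    · simp only [rel_ps, true_and]
      rfl
  nm_cl n m x y := by
    simp only [R'_Md, rel_nm, E_Md]
    rintro ⟨rfl, -⟩ ⟨h1, h2⟩
    refine ⟨y.v, ?_, Md.ext h1.symm rfl, Md.ext h1.symm rfl⟩
    have h3 : y.v / 3 ^ (n + 1) < m + 1 := by
      rw [← h2]
      exact Nat.lt_succ_of_le (Nat.div_le_self _ _)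
    rw [Nat.div_lt_iff_lt_mul (by positivity)] at h3
    rwa [mul_comm] at h3

end mdgood

end Pool.Agent.Lib.MP_76ae7e_lc
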