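import Mathlib

/-!
Definitions for the problem MP_76ae7e_lc (strong autostability of nonsaturated models of
uncountably categorical theories).

Everything is stated for one computable relational language `LR`, whose symbols are binary
relation symbols `R_0, R_1, R_2, ...`; a negative answer needs just one language.
-/

open FirstOrder Cardinal

namespace Pool.Agent.Lib.MP_76ae7e_lc

/-- The relation symbols: for every natural number `i` one binary relation symbol `r i`. -/
inductive RelSym : ℕ → Type
  | r (i : ℕ) : RelSym 2

/-- The language with binary relation symbols `r 0, r 1, r 2, ...` and no other symbol. -/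
def LR : FirstOrder.Language.{0, 0} := ⟨fun _ => Empty, RelSym⟩

/-- The number of a term. The language has no function symbols, so a term is a variable; in the
scope of `n` quantifiers the bound variable `i < n` has number `i`, and the free variable `a` has
number `n + c a`, where `c` is a numbering of the free variables. -/
def termNum {α : Type} (c : α → ℕ) {n : ℕ} : LR.Term (α ⊕ Fin n) → ℕ
  | .var (.inl a) => n + c a
  | .var (.inr i) => i
  | .func f _ => Empty.elim f

/-- The number of an atomic formula `r i (t₀, t₁)`, from the numbers `v 0`, `v 1` of `t₀`, `t₁`. -/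
def atomNum : {l : ℕ} → RelSym l → (Fin l → ℕ) → ℕ
  | _, .r i, v => Nat.pair i (Nat.pair (v 0) (v 1))

/-- The Goedel number of a first-order formula of `LR`. -/
def gn {α : Type} (c : α → ℕ) : {n : ℕ} → LR.BoundedFormula α n → ℕ
  | _, .falsum => 0
  | _, .equal t₁ t₂ => 4 * Nat.pair (termNum c t₁) (termNum c t₂) + 1
  | _, .rel R ts => 4 * atomNum R (fun i => termNum c (ts i)) + 2
  | _, .imp f g => 4 * Nat.pair (gn c f) (gn c g) + 3
  | _, .all f => 4 * gn c f + 4

/-- A theory is decidable when the set of Goedel numbers of its sentences is computable. -/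
def IsDecidable (T : LR.Theory) : Prop :=
  ComputablePred fun e : ℕ => ∃ φ : LR.Sentence, gn Empty.elim φ = e ∧ φ ∈ T

/-- A theory is uncountably categorical when in every uncountable cardinality it has exactly one
model up to isomorphism. -/
def IsUncountablyCategorical (T : LR.Theory) : Prop :=
  ∀ κ : Cardinal.{0}, ℵ₀ < κ →
    (∃ M : FirstOrder.Language.Theory.ModelType.{0, 0, 0} T, #M = κ) ∧
    ∀ M N : FirstOrder.Language.Theory.ModelType.{0, 0, 0} T, #M = κ → #N = κ → Nonempty (M ≃[LR] N)

/-- `M` is a prime model of `T`: it embeds elementarily into every model of `T`. -/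
def IsPrimeModel (T : LR.Theory) (M : FirstOrder.Language.Theory.ModelType.{0, 0, 0} T) : Prop :=
  ∀ N : FirstOrder.Language.Theory.ModelType.{0, 0, 0} T, Nonempty (M ↪ₑ[LR] N)

/-- `M` is saturated: for every set `A` of parameters of smaller cardinality than `M`, every set of
formulas in one variable with parameters from `A` that is finitely satisfiable in `M` is realized
in `M`. -/
def IsSaturated (M : Type) [LR.Structure M] : Prop :=
  ∀ A : Set M, #A < #M → ∀ p : Set (LR.Formula (A ⊕ Unit)),
    (∀ q : Finset (LR.Formula (A ⊕ Unit)), (q : Set _) ⊆ p →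
      ∃ x : M, ∀ φ ∈ q, φ.Realize (Sum.elim (fun a : A => (a : M)) fun _ => x)) →
    ∃ x : M, ∀ φ ∈ p, φ.Realize (Sum.elim (fun a : A => (a : M)) fun _ => x)

/-- `ν : ℕ → M` is a strong constructivization of the structure `M`: it is onto, and the full
elementary diagram, the set of pairs (number of a formula `φ` with free variables `x₀, x₁, ...`,
list `l` of natural numbers) such that `M` satisfies `φ` at `x_k = ν (l_k)` (with `l_k = 0` beyond
the end of the list), is computable. -/
def IsStrongConstructivization (M : Type) [LR.Structure M] (ν : ℕ → M) : Prop :=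
  Function.Surjective ν ∧
  ComputablePred fun p : ℕ × List ℕ =>
    ∃ φ : LR.Formula ℕ, gn id φ = p.1 ∧ φ.Realize fun k => ν (p.2.getD k 0)

/-- Two numberings are autoequivalent: an automorphism `g` and a computable `f` satisfy
`g ∘ ν = μ ∘ f`. -/
def AutoEquivalent (M : Type) [LR.Structure M] (ν μ : ℕ → M) : Prop :=
  ∃ (g : M ≃[LR] M) (f : ℕ → ℕ), Computable f ∧ ∀ n, g (ν n) = μ (f n)

/-- `M` is strongly autostable: any two strong constructivizations are autoequivalent. -/
def IsStronglyAutostable (M : Type) [LR.Structure M] : Prop :=
  ∀ ν μ : ℕ → M, IsStrongConstructivization M ν → IsStrongConstructivization M μ →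
    AutoEquivalent M ν μ

end Pool.Agent.Lib.MP_76ae7e_lc
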