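import Pool.Agent.Lib.MP_76ae7e_lc.Defs

/-!
A primitive recursive evaluation of first-order formulas in numbered structures in which
quantifiers can be bounded.
-/

open FirstOrder Cardinal

namespace Pool.Agent.Lib.MP_76ae7e_lc

open Language

/-- State of the evaluation: formula number, values of the bound variables (newest first), values
of the free variables. -/
abbrev St : Type := ℕ × List ℕ × List ℕ

/-- value of the variable number `v` -/
def look (bs fs : List ℕ) (v : ℕ) : ℕ :=
  if v < bs.length then bs.getD (bs.length - 1 - v) 0 else fs.getD (v - bs.length) 0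

/-- bound for all numbers occurring in the state -/
def mx (bs fs : List ℕ) : ℕ := Encodable.encode bs + Encodable.encode fs

section
variable (Rb : ℕ → ℕ → ℕ → Bool) (B : ℕ → ℕ → ℕ)

/-- the states needed to evaluate a state -/
def sub (s : St) : List St :=
  if s.1 = 0 then []
  else if (s.1 - 1) % 4 = 2 then
    [((Nat.unpair ((s.1 - 1) / 4)).1, s.2), ((Nat.unpair ((s.1 - 1) / 4)).2, s.2)]
  else if (s.1 - 1) % 4 = 3 then
    (List.range (B s.1 (mx s.2.1 s.2.2))).map fun y => ((s.1 - 1) / 4, y :: s.2.1, s.2.2)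
  else []

/-- combine the values of the subformulas -/
def comb (s : St) (rs : List (Bool × Bool)) : Bool × Bool :=
  if s.1 = 0 then (false, true)
  else if (s.1 - 1) % 4 = 0 then
    (look s.2.1 s.2.2 (Nat.unpair ((s.1 - 1) / 4)).1 ==
      look s.2.1 s.2.2 (Nat.unpair ((s.1 - 1) / 4)).2,
     decide ((Nat.unpair ((s.1 - 1) / 4)).1 < s.2.1.length) &&
      decide ((Nat.unpair ((s.1 - 1) / 4)).2 < s.2.1.length))
  else if (s.1 - 1) % 4 = 1 then
    (Rb (Nat.unpair ((s.1 - 1) / 4)).1
        (look s.2.1 s.2.2 (Nat.unpair (Nat.unpair ((s.1 - 1) / 4)).2).1)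
        (look s.2.1 s.2.2 (Nat.unpair (Nat.unpair ((s.1 - 1) / 4)).2).2),
     decide ((Nat.unpair (Nat.unpair ((s.1 - 1) / 4)).2).1 < s.2.1.length) &&
      decide ((Nat.unpair (Nat.unpair ((s.1 - 1) / 4)).2).2 < s.2.1.length))
  else if (s.1 - 1) % 4 = 2 then
    (!(rs.getD 0 (false, false)).1 || (rs.getD 1 (false, false)).1,
     (rs.getD 0 (false, false)).2 && (rs.getD 1 (false, false)).2)
  else (rs.foldr (fun r b => r.1 && b) true, rs.foldr (fun r b => r.2 && b) true)

theorem sub_lt (s t : St) (h : t ∈ sub B s) : t.1 < s.1 := by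
  unfold sub at h
  split_ifs at h with h0 h1 h2
  · simp at h
  · have hs : 0 < s.1 := Nat.pos_of_ne_zero h0
    have h3 : (s.1 - 1) / 4 ≤ s.1 - 1 := Nat.div_le_self _ _
    simp only [List.mem_cons, List.not_mem_nil, or_false] at h
    rcases h with rfl | rfl
    · have := Nat.unpair_left_le ((s.1 - 1) / 4); simp only; omega
    · have := Nat.unpair_right_le ((s.1 - 1) / 4); simp only; omega
  · have hs : 0 < s.1 := Nat.pos_of_ne_zero h0
    have h3 : (s.1 - 1) / 4 ≤ s.1 - 1 := Nat.div_le_self _ _
    simp only [List.mem_map, List.mem_range] at h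
    obtain ⟨y, -, rfl⟩ := h
    simp only; omega
  · simp at h

/-- The evaluation: truth value and whether the number is that of a formula without free
variables. -/
def ev (s : St) : Bool × Bool :=
  comb Rb s ((sub B s).attach.map fun t => ev t.1)
termination_by s.1
decreasing_by exact sub_lt B s t.1 t.2

theorem ev_eq (s : St) : ev Rb B s = comb Rb s ((sub B s).map (ev Rb B)) := by
  rw [ev]
  congr 1
  simp

theorem look_primrec : Primrec fun p : (List ℕ × List ℕ) × ℕ => look p.1.1 p.1.2 p.2 := by
  unfold look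
  refine Primrec.ite ?_ ?_ ?_
  · exact Primrec.nat_lt.comp Primrec.snd (Primrec.list_length.comp (Primrec.fst.comp Primrec.fst))
  · refine (Primrec.list_getD 0).comp (Primrec.fst.comp Primrec.fst) ?_
    exact Primrec.nat_sub.comp (Primrec.nat_sub.comp
      (Primrec.list_length.comp (Primrec.fst.comp Primrec.fst)) (Primrec.const 1)) Primrec.snd
  · refine (Primrec.list_getD 0).comp (Primrec.snd.comp Primrec.fst) ?_
    exact Primrec.nat_sub.comp Primrec.snd
      (Primrec.list_length.comp (Primrec.fst.comp Primrec.fst))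

theorem mx_primrec : Primrec₂ mx := by
  unfold mx
  exact Primrec.nat_add.comp (Primrec.encode.comp Primrec.fst) (Primrec.encode.comp Primrec.snd)

theorem sub_primrec (hB : Primrec₂ B) : Primrec (sub B) := by
  have h1 : Primrec fun s : St => s.1 - 1 := Primrec.nat_sub.comp Primrec.fst (Primrec.const 1)
  have h2 : Primrec fun s : St => (s.1 - 1) % 4 := Primrec.nat_mod.comp h1 (Primrec.const 4)
  have h3 : Primrec fun s : St => (s.1 - 1) / 4 := Primrec.nat_div.comp h1 (Primrec.const 4)
  have h4 : Primrec fun s : St => Nat.unpair ((s.1 - 1) / 4) := Primrec.unpair.comp h3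
  unfold sub
  refine Primrec.ite (Primrec.eq.comp Primrec.fst (Primrec.const 0)) (Primrec.const []) ?_
  refine Primrec.ite (Primrec.eq.comp h2 (Primrec.const 2)) ?_ ?_
  · refine Primrec.list_cons.comp (Primrec.pair (Primrec.fst.comp h4) Primrec.snd) ?_
    exact Primrec.list_cons.comp (Primrec.pair (Primrec.snd.comp h4) Primrec.snd) (Primrec.const [])
  · refine Primrec.ite (Primrec.eq.comp h2 (Primrec.const 3)) ?_ (Primrec.const [])
    refine Primrec.list_map (Primrec.list_range.comp ?_) ?_
    · exact hB.comp Primrec.fst (mx_primrec.comp (Primrec.fst.comp Primrec.snd)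
        (Primrec.snd.comp Primrec.snd))
    · have h5 : Primrec fun p : St × ℕ => ((p.1.1 - 1) / 4, p.2 :: p.1.2.1, p.1.2.2) :=
        Primrec.pair (h3.comp Primrec.fst) (Primrec.pair
          (Primrec.list_cons.comp Primrec.snd (Primrec.fst.comp (Primrec.snd.comp Primrec.fst)))
          (Primrec.snd.comp (Primrec.snd.comp Primrec.fst)))
      exact h5

theorem comb_primrec (hRb : Primrec fun p : ℕ × ℕ × ℕ => Rb p.1 p.2.1 p.2.2) :
    Primrec₂ (comb Rb) := by
  have hs : Primrec fun p : St × List (Bool × Bool) => p.1 := Primrec.fst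
  have h1 : Primrec fun p : St × List (Bool × Bool) => p.1.1 - 1 :=
    Primrec.nat_sub.comp (Primrec.fst.comp hs) (Primrec.const 1)
  have h2 : Primrec fun p : St × List (Bool × Bool) => (p.1.1 - 1) % 4 :=
    Primrec.nat_mod.comp h1 (Primrec.const 4)
  have h3 : Primrec fun p : St × List (Bool × Bool) => (p.1.1 - 1) / 4 :=
    Primrec.nat_div.comp h1 (Primrec.const 4)
  have h4 : Primrec fun p : St × List (Bool × Bool) => Nat.unpair ((p.1.1 - 1) / 4) :=
    Primrec.unpair.comp h3
  have h5 : Primrec fun p : St × List (Bool × Bool) =>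
      Nat.unpair (Nat.unpair ((p.1.1 - 1) / 4)).2 := Primrec.unpair.comp (Primrec.snd.comp h4)
  have hlen : Primrec fun p : St × List (Bool × Bool) => p.1.2.1.length :=
    Primrec.list_length.comp (Primrec.fst.comp (Primrec.snd.comp hs))
  have hlook : ∀ {f : St × List (Bool × Bool) → ℕ}, Primrec f →
      Primrec fun p : St × List (Bool × Bool) => look p.1.2.1 p.1.2.2 (f p) := by
    intro f hf
    exact look_primrec.comp (Primrec.pair (Primrec.snd.comp hs) hf)
  have hlt : ∀ {f : St × List (Bool × Bool) → ℕ}, Primrec f →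
      Primrec fun p : St × List (Bool × Bool) => decide (f p < p.1.2.1.length) := by
    intro f hf
    exact (Primrec.nat_lt.comp hf hlen).decide
  have hget : ∀ k, Primrec fun p : St × List (Bool × Bool) => p.2.getD k (false, false) :=
    fun k => (Primrec.list_getD (false, false)).comp Primrec.snd (Primrec.const k)
  unfold comb
  refine Primrec.ite (Primrec.eq.comp (Primrec.fst.comp hs) (Primrec.const 0))
    (Primrec.const _) ?_
  refine Primrec.ite (Primrec.eq.comp h2 (Primrec.const 0)) ?_ ?_
  · refine Primrec.pair (Primrec.beq.comp (hlook (Primrec.fst.comp h4))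
      (hlook (Primrec.snd.comp h4))) ?_
    exact Primrec.and.comp (hlt (Primrec.fst.comp h4)) (hlt (Primrec.snd.comp h4))
  refine Primrec.ite (Primrec.eq.comp h2 (Primrec.const 1)) ?_ ?_
  · refine Primrec.pair ?_ ?_
    · exact hRb.comp (Primrec.pair (Primrec.fst.comp h4) (Primrec.pair
        (hlook (Primrec.fst.comp h5)) (hlook (Primrec.snd.comp h5))))
    · exact Primrec.and.comp (hlt (Primrec.fst.comp h5)) (hlt (Primrec.snd.comp h5))
  refine Primrec.ite (Primrec.eq.comp h2 (Primrec.const 2)) ?_ ?_
  · refine Primrec.pair ?_ ?_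
    · exact Primrec.or.comp (Primrec.not.comp (Primrec.fst.comp (hget 0)))
        (Primrec.fst.comp (hget 1))
    · exact Primrec.and.comp (Primrec.snd.comp (hget 0)) (Primrec.snd.comp (hget 1))
  · refine Primrec.pair ?_ ?_
    · have h6 : Primrec₂ fun (_ : St × List (Bool × Bool)) (q : (Bool × Bool) × Bool) =>
          (q.1.1 && q.2) :=
        Primrec.and.comp (Primrec.fst.comp (Primrec.fst.comp Primrec.snd))
          (Primrec.snd.comp Primrec.snd)
      exact Primrec.list_foldr Primrec.snd (Primrec.const true) h6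
    · have h6 : Primrec₂ fun (_ : St × List (Bool × Bool)) (q : (Bool × Bool) × Bool) =>
          (q.1.2 && q.2) :=
        Primrec.and.comp (Primrec.snd.comp (Primrec.fst.comp Primrec.snd))
          (Primrec.snd.comp Primrec.snd)
      exact Primrec.list_foldr Primrec.snd (Primrec.const true) h6

theorem ev_primrec (hRb : Primrec fun p : ℕ × ℕ × ℕ => Rb p.1 p.2.1 p.2.2) (hB : Primrec₂ B) :
    Primrec (ev Rb B) := by
  refine Primrec.nat_omega_rec' (ev Rb B) (m := fun s => s.1) (l := sub B)
    (g := fun s rs => some (comb Rb s rs)) Primrec.fst (sub_primrec B hB)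
    (Primrec.option_some.comp (comb_primrec Rb hRb)) (sub_lt B) ?_
  intro s
  rw [← ev_eq]

end

/-! ### numbers in the state are bounded -/

theorem mem_le_encode {l : List ℕ} {a : ℕ} (h : a ∈ l) : a ≤ Encodable.encode l := by
  induction l with
  | nil => simp at h
  | cons b l ih =>
    rw [Encodable.encode_list_cons]
    rcases List.mem_cons.1 h with rfl | h
    · exact (Nat.left_le_pair _ _).trans (Nat.le_succ _)
    · exact (ih h).trans ((Nat.right_le_pair _ _).trans (Nat.le_succ _))

theorem getD_le_encode (l : List ℕ) (k : ℕ) : l.getD k 0 ≤ Encodable.encode l := by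
  by_cases h : k < l.length
  · rw [List.getD_eq_getElem _ _ h]
    exact mem_le_encode (List.getElem_mem h)
  · rw [List.getD_eq_default _ _ (not_lt.1 h)]
    exact Nat.zero_le _

theorem termNum_le {α : Type} (c : α → ℕ) {n : ℕ} (bs fs : List ℕ) (hn : bs.length = n)
    {M : Type} [LR.Structure M] (ν : ℕ → M) (t : LR.Term (α ⊕ Fin n)) :
    t.realize (Sum.elim (fun a => ν (fs.getD (c a) 0))
      (fun i : Fin n => ν (bs.getD (n - 1 - i) 0))) = ν (look bs fs (termNum c t)) := by
  match t with
  | .var (.inl a) =>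
    simp only [Term.realize, Sum.elim_inl, termNum, look, hn]
    rw [if_neg (by omega)]
    congr 2
    omega
  | .var (.inr i) =>
    simp only [Term.realize, Sum.elim_inr, termNum, look, hn]
    rw [if_pos i.2]
  | .func f _ => exact Empty.elim f

/-! ### invariance under bijections preserving an initial segment of the relations -/

theorem RelMap_eq' {N : Type} [LR.Structure N] (i : ℕ) (v : Fin 2 → N) :
    Language.Structure.RelMap (L := LR) (RelSym.r i) v ↔
      Language.Structure.RelMap (L := LR) (RelSym.r i) ![v 0, v 1] := by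
  have : v = ![v 0, v 1] := by
    funext j; fin_cases j <;> rfl
  rw [← this]

theorem realize_term_comp {α : Type} {M : Type} [LR.Structure M] (π : M → M)
    (v : α → M) (t : LR.Term α) : t.realize (π ∘ v) = π (t.realize v) := by
  match t with
  | .var a => rfl
  | .func f _ => exact Empty.elim f

theorem realize_invariant {α : Type} (c : α → ℕ) {M : Type} [LR.Structure M] (e : ℕ) (π : M ≃ M)
    (hπ : ∀ i ≤ e, ∀ a b : M, Language.Structure.RelMap (L := LR) (RelSym.r i) ![π a, π b] ↔
      Language.Structure.RelMap (L := LR) (RelSym.r i) ![a, b])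
    {n : ℕ} (φ : LR.BoundedFormula α n) (hφ : gn c φ ≤ e) (v : α → M) (xs : Fin n → M) :
    φ.Realize (π ∘ v) (π ∘ xs) ↔ φ.Realize v xs := by
  induction φ with
  | falsum => exact Iff.rfl
  | equal t₁ t₂ =>
    simp only [BoundedFormula.Realize]
    rw [← Sum.comp_elim, realize_term_comp, realize_term_comp, π.injective.eq_iff]
  | @rel n l R ts =>
    match l, R, ts with
    | _, .r i, ts =>
      simp only [BoundedFormula.Realize]
      rw [← Sum.comp_elim]
      simp only [realize_term_comp]
      have hi : i ≤ e := by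
        have h1 : gn c (BoundedFormula.rel (L := LR) (RelSym.r i) ts) =
          4 * Nat.pair i (Nat.pair (termNum c (ts 0)) (termNum c (ts 1))) + 2 := rfl
        rw [h1] at hφ
        have := Nat.left_le_pair i (Nat.pair (termNum c (ts 0)) (termNum c (ts 1)))
        omega
      exact (RelMap_eq' i _).trans ((hπ i hi _ _).trans
        (RelMap_eq' i (fun j => Term.realize (Sum.elim v xs) (ts j))).symm)
  | imp f g ihf ihg =>
    have h1 : gn c (f.imp g) = 4 * Nat.pair (gn c f) (gn c g) + 3 := rfl
    rw [h1] at hφ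
    have h2 := Nat.left_le_pair (gn c f) (gn c g)
    have h3 := Nat.right_le_pair (gn c f) (gn c g)
    simp only [BoundedFormula.Realize]
    rw [ihf (by omega), ihg (by omega)]
  | @all n f ih =>
    have h1 : gn c (f.all) = 4 * gn c f + 4 := rfl
    rw [h1] at hφ
    simp only [BoundedFormula.Realize]
    constructor
    · intro h a
      rw [← ih (by omega)]
      have h2 := h (π a)
      rwa [show (π ∘ Fin.snoc xs a : Fin (n + 1) → M) = Fin.snoc (π ∘ xs) (π a) from
        Fin.comp_snoc π xs a]
    · intro h a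
      have h2 := h (π.symm a)
      rw [← ih (by omega)] at h2
      rwa [show (π ∘ Fin.snoc xs (π.symm a) : Fin (n + 1) → M) = Fin.snoc (π ∘ xs) a by
        have := Fin.comp_snoc π xs (π.symm a)
        rw [π.apply_symm_apply] at this
        exact this] at h2

/-! ### correctness -/

section correct

variable {M : Type} [LR.Structure M] (ν : ℕ → M) (Rb : ℕ → ℕ → ℕ → Bool) (B : ℕ → ℕ → ℕ)

/-- the hypothesis that quantifiers can be bounded -/
def Bounding : Prop :=
  ∀ e m x : ℕ, ∃ π : M ≃ M,
    (∀ i ≤ e, ∀ a b : M, Language.Structure.RelMap (L := LR) (RelSym.r i) ![π a, π b] ↔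
      Language.Structure.RelMap (L := LR) (RelSym.r i) ![a, b]) ∧
    (∀ k ≤ m, π (ν k) = ν k) ∧ ∃ x' < B e m, π (ν x) = ν x'

theorem foldr_and (l : List (Bool × Bool)) (f : Bool × Bool → Bool) :
    l.foldr (fun r b => f r && b) true = true ↔ ∀ r ∈ l, f r = true := by
  induction l with
  | nil => simp
  | cons a l ih => simp [ih]

theorem ev_correct (hsurj : Function.Surjective ν) (hinj : Function.Injective ν)
    (hR : ∀ i x y, Language.Structure.RelMap (L := LR) (RelSym.r i) ![ν x, ν y] ↔ Rb i x y = true)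
    (hB : Bounding ν B) {α : Type} (c : α → ℕ) {n : ℕ} (φ : LR.BoundedFormula α n) :
    ∀ (bs fs : List ℕ), bs.length = n →
    ((ev Rb B (gn c φ, bs, fs)).1 = true ↔ φ.Realize (fun a => ν (fs.getD (c a) 0))
      (fun i : Fin n => ν (bs.getD (n - 1 - i) 0))) := by
  induction φ with
  | falsum =>
    intro bs fs _
    rw [ev_eq]
    simp [comb, gn, BoundedFormula.Realize]
  | equal t₁ t₂ =>
    intro bs fs hn
    rw [ev_eq]
    have h1 : gn c (BoundedFormula.equal t₁ t₂) - 1 =
      4 * Nat.pair (termNum c t₁) (termNum c t₂) := rfl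
    have h0 : gn c (BoundedFormula.equal t₁ t₂) ≠ 0 := by simp [gn]
    have h2 : 4 * Nat.pair (termNum c t₁) (termNum c t₂) % 4 = 0 := by omega
    have h3 : 4 * Nat.pair (termNum c t₁) (termNum c t₂) / 4 =
      Nat.pair (termNum c t₁) (termNum c t₂) := by omega
    unfold comb
    simp only [h0, if_false, h1, h2, if_true, h3, Nat.unpair_pair, beq_iff_eq,
      BoundedFormula.Realize]
    rw [termNum_le c bs fs hn ν t₁, termNum_le c bs fs hn ν t₂, hinj.eq_iff]
  | @rel n l R ts =>
    match l, R, ts with
    | _, .r i, ts =>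
      intro bs fs hn
      rw [ev_eq]
      have h1 : gn c (BoundedFormula.rel (L := LR) (RelSym.r i) ts) - 1 =
        4 * Nat.pair i (Nat.pair (termNum c (ts 0)) (termNum c (ts 1))) + 1 := rfl
      have h0 : gn c (BoundedFormula.rel (L := LR) (RelSym.r i) ts) ≠ 0 := by simp [gn]
      have h2 : (4 * Nat.pair i (Nat.pair (termNum c (ts 0)) (termNum c (ts 1))) + 1) % 4 = 1 := by
        omega
      have h3 : (4 * Nat.pair i (Nat.pair (termNum c (ts 0)) (termNum c (ts 1))) + 1) / 4 =
        Nat.pair i (Nat.pair (termNum c (ts 0)) (termNum c (ts 1))) := by omega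
      unfold comb
      simp only [h0, if_false, h1, h2, one_ne_zero, if_true, h3, Nat.unpair_pair,
        BoundedFormula.Realize]
      rw [← hR, ← termNum_le c bs fs hn ν (ts 0), ← termNum_le c bs fs hn ν (ts 1)]
      exact (RelMap_eq' i (fun j => (ts j).realize (Sum.elim (fun a => ν (fs.getD (c a) 0))
        (fun i : Fin n => ν (bs.getD (n - 1 - i) 0))))).symm
  | imp f g ihf ihg =>
    intro bs fs hn
    rw [ev_eq]
    have h1 : gn c (f.imp g) - 1 = 4 * Nat.pair (gn c f) (gn c g) + 2 := rfl
    have h0 : gn c (f.imp g) ≠ 0 := by simp [gn]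
    have h2 : (4 * Nat.pair (gn c f) (gn c g) + 2) % 4 = 2 := by omega
    have h3 : (4 * Nat.pair (gn c f) (gn c g) + 2) / 4 = Nat.pair (gn c f) (gn c g) := by omega
    have hsub : sub B (gn c (f.imp g), bs, fs) = [(gn c f, bs, fs), (gn c g, bs, fs)] := by
      unfold sub
      simp only [h0, if_false, h1, h2, if_true, h3, Nat.unpair_pair]
    rw [hsub]
    unfold comb
    simp only [h0, if_false, h1, h2, if_true, OfNat.ofNat_ne_zero, OfNat.ofNat_ne_one,
      List.map_cons, List.map_nil, List.getD_cons_zero, List.getD_cons_succ,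
      BoundedFormula.Realize]
    rw [← ihf bs fs hn, ← ihg bs fs hn]
    cases (ev Rb B (gn c f, bs, fs)).1 <;> cases (ev Rb B (gn c g, bs, fs)).1 <;> simp
  | @all n f ih =>
    intro bs fs hn
    rw [ev_eq]
    have h1 : gn c (f.all) - 1 = 4 * gn c f + 3 := rfl
    have h0 : gn c (f.all) ≠ 0 := by simp [gn]
    have h2 : (4 * gn c f + 3) % 4 = 3 := by omega
    have h3 : (4 * gn c f + 3) / 4 = gn c f := by omega
    have hsub : sub B (gn c (f.all), bs, fs) =
        (List.range (B (gn c f.all) (mx bs fs))).map fun y => (gn c f, y :: bs, fs) := by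
      unfold sub
      simp only [h0, if_false, h1, h2, if_true, h3, Nat.reduceEqDiff]
    rw [hsub]
    unfold comb
    simp only [h0, if_false, h1, h2, OfNat.ofNat_ne_zero, OfNat.ofNat_ne_one,
      Nat.reduceEqDiff, foldr_and, List.map_map, List.mem_map,
      List.mem_range, Function.comp, forall_exists_index, and_imp, forall_apply_eq_imp_iff₂,
      BoundedFormula.Realize]
    have hsnoc : ∀ y : ℕ, (Fin.snoc (α := fun _ => M) (fun i : Fin n => ν (bs.getD (n - 1 - i) 0))
        (ν y)) = fun i : Fin (n + 1) => ν ((y :: bs).getD (n + 1 - 1 - i) 0) := by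
      intro y
      funext i
      refine Fin.lastCases ?_ (fun j => ?_) i
      · rw [Fin.snoc_last]
        simp
      · rw [Fin.snoc_castSucc]
        have hj := j.2
        have h4 : n + 1 - 1 - ((Fin.castSucc j : Fin (n + 1)) : ℕ) = (n - 1 - j) + 1 := by
          simp only [Fin.val_castSucc]; omega
        rw [h4, List.getD_cons_succ]
    constructor
    · intro h a
      obtain ⟨x, rfl⟩ := hsurj a
      obtain ⟨π, hπ1, hπ2, x', hx', hπ3⟩ := hB (gn c f.all) (mx bs fs) x
      have h4 := (ih (x' :: bs) fs (by simp [hn])).1 (h x' hx')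
      rw [← hsnoc] at h4
      have h5 := realize_invariant c (gn c f.all) π hπ1 f
        (by show gn c f ≤ 4 * gn c f + 4; omega)
        (fun a => ν (fs.getD (c a) 0))
        (Fin.snoc (α := fun _ => M) (fun i : Fin n => ν (bs.getD (n - 1 - i) 0)) (ν x))
      rw [← h5]
      have h6 : (π ∘ fun a => ν (fs.getD (c a) 0)) = fun a => ν (fs.getD (c a) 0) := by
        funext a
        exact hπ2 _ ((getD_le_encode fs _).trans (Nat.le_add_left _ _))
      have h7 : (π ∘ (Fin.snoc (α := fun _ => M) (fun i : Fin n => ν (bs.getD (n - 1 - i) 0))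
          (ν x)) : Fin (n + 1) → M) =
          Fin.snoc (α := fun _ => M) (fun i : Fin n => ν (bs.getD (n - 1 - i) 0)) (ν x') := by
        rw [show (π ∘ (Fin.snoc (α := fun _ => M) (fun i : Fin n => ν (bs.getD (n - 1 - i) 0))
          (ν x)) : Fin (n + 1) → M) = Fin.snoc (α := fun _ => M)
            (π ∘ (fun i : Fin n => ν (bs.getD (n - 1 - i) 0))) (π (ν x)) from Fin.comp_snoc _ _ _]
        rw [hπ3]
        congr 1
        funext i
        exact hπ2 _ ((getD_le_encode bs _).trans (Nat.le_add_right _ _))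
      rw [h6, h7]
      exact h4
    · intro h y _
      have h4 := h (ν y)
      rw [hsnoc y] at h4
      exact (ih (y :: bs) fs (by simp [hn])).2 h4

theorem ev_closed (n : ℕ) (φ : LR.BoundedFormula Empty n) :
    ∀ (bs fs : List ℕ), bs.length = n → (ev Rb B (gn Empty.elim φ, bs, fs)).2 = true := by
  have hterm : ∀ {n : ℕ} (t : LR.Term (Empty ⊕ Fin n)), termNum Empty.elim t < n := by
    intro n t
    match t with
    | .var (.inr i) => exact i.2
    | .func f _ => exact Empty.elim f
  induction φ with
  | falsum =>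
    intro bs fs _
    rw [ev_eq]
    simp [comb, gn]
  | equal t₁ t₂ =>
    intro bs fs hn
    rw [ev_eq]
    have h1 : gn Empty.elim (BoundedFormula.equal t₁ t₂) - 1 =
      4 * Nat.pair (termNum Empty.elim t₁) (termNum Empty.elim t₂) := rfl
    have h0 : gn Empty.elim (BoundedFormula.equal t₁ t₂) ≠ 0 := by simp [gn]
    have h2 : 4 * Nat.pair (termNum Empty.elim t₁) (termNum Empty.elim t₂) % 4 = 0 := by omega
    have h3 : 4 * Nat.pair (termNum Empty.elim t₁) (termNum Empty.elim t₂) / 4 =
      Nat.pair (termNum Empty.elim t₁) (termNum Empty.elim t₂) := by omega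
    unfold comb
    simp only [h0, if_false, h1, h2, if_true, h3, Nat.unpair_pair, hn, hterm, decide_true,
      Bool.and_self]
  | @rel n l R ts =>
    match l, R, ts with
    | _, .r i, ts =>
      intro bs fs hn
      rw [ev_eq]
      have h1 : gn Empty.elim (BoundedFormula.rel (L := LR) (RelSym.r i) ts) - 1 =
        4 * Nat.pair i (Nat.pair (termNum Empty.elim (ts 0)) (termNum Empty.elim (ts 1))) + 1 := rfl
      have h0 : gn Empty.elim (BoundedFormula.rel (L := LR) (RelSym.r i) ts) ≠ 0 := by simp [gn]
      have h2 : (4 * Nat.pair i (Nat.pair (termNum Empty.elim (ts 0))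
          (termNum Empty.elim (ts 1))) + 1) % 4 = 1 := by omega
      have h3 : (4 * Nat.pair i (Nat.pair (termNum Empty.elim (ts 0))
          (termNum Empty.elim (ts 1))) + 1) / 4 =
        Nat.pair i (Nat.pair (termNum Empty.elim (ts 0)) (termNum Empty.elim (ts 1))) := by omega
      unfold comb
      simp only [h0, if_false, h1, h2, one_ne_zero, if_true, h3, Nat.unpair_pair, hn, hterm,
        decide_true, Bool.and_self]
  | imp f g ihf ihg =>
    intro bs fs hn
    rw [ev_eq]
    have h1 : gn Empty.elim (f.imp g) - 1 =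
      4 * Nat.pair (gn Empty.elim f) (gn Empty.elim g) + 2 := rfl
    have h0 : gn Empty.elim (f.imp g) ≠ 0 := by simp [gn]
    have h2 : (4 * Nat.pair (gn Empty.elim f) (gn Empty.elim g) + 2) % 4 = 2 := by omega
    have h3 : (4 * Nat.pair (gn Empty.elim f) (gn Empty.elim g) + 2) / 4 =
      Nat.pair (gn Empty.elim f) (gn Empty.elim g) := by omega
    have hsub : sub B (gn Empty.elim (f.imp g), bs, fs) =
        [(gn Empty.elim f, bs, fs), (gn Empty.elim g, bs, fs)] := by
      unfold sub
      simp only [h0, if_false, h1, h2, if_true, h3, Nat.unpair_pair]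
    rw [hsub]
    unfold comb
    simp only [h0, if_false, h1, h2, if_true, OfNat.ofNat_ne_zero, OfNat.ofNat_ne_one,
      List.map_cons, List.map_nil, List.getD_cons_zero, List.getD_cons_succ]
    rw [ihf bs fs hn, ihg bs fs hn]
    rfl
  | @all n f ih =>
    intro bs fs hn
    rw [ev_eq]
    have h1 : gn Empty.elim (f.all) - 1 = 4 * gn Empty.elim f + 3 := rfl
    have h0 : gn Empty.elim (f.all) ≠ 0 := by simp [gn]
    have h2 : (4 * gn Empty.elim f + 3) % 4 = 3 := by omega
    have h3 : (4 * gn Empty.elim f + 3) / 4 = gn Empty.elim f := by omega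
    have hsub : sub B (gn Empty.elim (f.all), bs, fs) =
        (List.range (B (gn Empty.elim f.all) (mx bs fs))).map
          fun y => (gn Empty.elim f, y :: bs, fs) := by
      unfold sub
      simp only [h0, if_false, h1, h2, if_true, h3, Nat.reduceEqDiff]
    rw [hsub]
    unfold comb
    simp only [h0, if_false, h1, h2, OfNat.ofNat_ne_zero, OfNat.ofNat_ne_one,
      Nat.reduceEqDiff, foldr_and, List.map_map, List.mem_map,
      List.mem_range, Function.comp, forall_exists_index, and_imp, forall_apply_eq_imp_iff₂]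
    intro y _
    exact ih (y :: bs) fs (by simp [hn])

theorem closed_exists (hB0 : ∀ e m, 0 < B e m) (e : ℕ) : ∀ (bs fs : List ℕ),
    (ev Rb B (e, bs, fs)).2 = true → ∃ φ : LR.BoundedFormula Empty bs.length,
      gn Empty.elim φ = e := by
  have hterm : ∀ {n v : ℕ}, v < n → ∃ t : LR.Term (Empty ⊕ Fin n), termNum Empty.elim t = v :=
    fun {n v} hv => ⟨Term.var (Sum.inr ⟨v, hv⟩), rfl⟩
  induction e using Nat.strong_induction_on with
  | _ e ih =>
    intro bs fs h
    rw [ev_eq] at h
    by_cases h0 : e = 0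
    · exact ⟨BoundedFormula.falsum, h0.symm⟩
    · have hcases : (e - 1) % 4 = 0 ∨ (e - 1) % 4 = 1 ∨ (e - 1) % 4 = 2 ∨ (e - 1) % 4 = 3 := by
        omega
      rcases hcases with h1 | h1 | h1 | h1
      · unfold comb at h
        simp only [h0, if_false, h1, if_true, Bool.and_eq_true, decide_eq_true_eq] at h
        obtain ⟨t₁, ht₁⟩ := hterm h.1
        obtain ⟨t₂, ht₂⟩ := hterm h.2
        refine ⟨BoundedFormula.equal t₁ t₂, ?_⟩
        show 4 * Nat.pair (termNum Empty.elim t₁) (termNum Empty.elim t₂) + 1 = e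
        rw [ht₁, ht₂, Nat.pair_unpair]
        omega
      · unfold comb at h
        simp only [h0, if_false, h1, one_ne_zero, if_true, Bool.and_eq_true,
          decide_eq_true_eq] at h
        obtain ⟨t₁, ht₁⟩ := hterm h.1
        obtain ⟨t₂, ht₂⟩ := hterm h.2
        refine ⟨BoundedFormula.rel (L := LR) (RelSym.r (Nat.unpair ((e - 1) / 4)).1) ![t₁, t₂], ?_⟩
        show 4 * Nat.pair (Nat.unpair ((e - 1) / 4)).1 (Nat.pair (termNum Empty.elim t₁)
          (termNum Empty.elim t₂)) + 2 = e
        rw [ht₁, ht₂, Nat.pair_unpair, Nat.pair_unpair]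
        omega
      · have hsub : sub B (e, bs, fs) = [((Nat.unpair ((e - 1) / 4)).1, bs, fs),
            ((Nat.unpair ((e - 1) / 4)).2, bs, fs)] := by
          unfold sub
          simp only [h0, if_false, h1, if_true]
        rw [hsub] at h
        unfold comb at h
        simp only [h0, if_false, h1, if_true, OfNat.ofNat_ne_zero, OfNat.ofNat_ne_one,
          List.map_cons, List.map_nil, List.getD_cons_zero, List.getD_cons_succ,
          Bool.and_eq_true] at h
        have hl1 := Nat.unpair_left_le ((e - 1) / 4)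
        have hl2 := Nat.unpair_right_le ((e - 1) / 4)
        obtain ⟨f, hf⟩ := ih _ (by omega) bs fs h.1
        obtain ⟨g, hg⟩ := ih _ (by omega) bs fs h.2
        refine ⟨f.imp g, ?_⟩
        show 4 * Nat.pair (gn Empty.elim f) (gn Empty.elim g) + 3 = e
        rw [hf, hg, Nat.pair_unpair]
        omega
      · have hsub : sub B (e, bs, fs) =
            (List.range (B e (mx bs fs))).map fun y => ((e - 1) / 4, y :: bs, fs) := by
          unfold sub
          simp only [h0, if_false, h1, if_true, Nat.reduceEqDiff]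
        rw [hsub] at h
        unfold comb at h
        simp only [h0, if_false, h1, OfNat.ofNat_ne_zero, OfNat.ofNat_ne_one,
          Nat.reduceEqDiff, foldr_and, List.map_map, List.mem_map,
          List.mem_range, Function.comp, forall_exists_index, and_imp,
          forall_apply_eq_imp_iff₂] at h
        obtain ⟨f, hf⟩ := ih _ (by omega) (0 :: bs) fs (h 0 (hB0 _ _))
        refine ⟨BoundedFormula.all f, ?_⟩
        show 4 * gn Empty.elim f + 4 = e
        rw [hf]
        omega

theorem gn_surj (e : ℕ) : ∀ n : ℕ, ∃ φ : LR.BoundedFormula ℕ n, gn id φ = e := by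
  have hterm : ∀ (n v : ℕ), ∃ t : LR.Term (ℕ ⊕ Fin n), termNum id t = v := by
    intro n v
    by_cases hv : v < n
    · exact ⟨Term.var (Sum.inr ⟨v, hv⟩), rfl⟩
    · refine ⟨Term.var (Sum.inl (v - n)), ?_⟩
      show n + (v - n) = v
      omega
  induction e using Nat.strong_induction_on with
  | _ e ih =>
    intro n
    by_cases h0 : e = 0
    · exact ⟨BoundedFormula.falsum, h0.symm⟩
    · have hcases : (e - 1) % 4 = 0 ∨ (e - 1) % 4 = 1 ∨ (e - 1) % 4 = 2 ∨ (e - 1) % 4 = 3 := by
        omega
      have hl1 := Nat.unpair_left_le ((e - 1) / 4)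
      have hl2 := Nat.unpair_right_le ((e - 1) / 4)
      rcases hcases with h1 | h1 | h1 | h1
      · obtain ⟨t₁, ht₁⟩ := hterm n (Nat.unpair ((e - 1) / 4)).1
        obtain ⟨t₂, ht₂⟩ := hterm n (Nat.unpair ((e - 1) / 4)).2
        refine ⟨BoundedFormula.equal t₁ t₂, ?_⟩
        show 4 * Nat.pair (termNum id t₁) (termNum id t₂) + 1 = e
        rw [ht₁, ht₂, Nat.pair_unpair]
        omega
      · obtain ⟨t₁, ht₁⟩ := hterm n (Nat.unpair (Nat.unpair ((e - 1) / 4)).2).1
        obtain ⟨t₂, ht₂⟩ := hterm n (Nat.unpair (Nat.unpair ((e - 1) / 4)).2).2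
        refine ⟨BoundedFormula.rel (L := LR) (RelSym.r (Nat.unpair ((e - 1) / 4)).1) ![t₁, t₂], ?_⟩
        show 4 * Nat.pair (Nat.unpair ((e - 1) / 4)).1 (Nat.pair (termNum id t₁)
          (termNum id t₂)) + 2 = e
        rw [ht₁, ht₂, Nat.pair_unpair, Nat.pair_unpair]
        omega
      · obtain ⟨f, hf⟩ := ih (Nat.unpair ((e - 1) / 4)).1 (by omega) n
        obtain ⟨g, hg⟩ := ih (Nat.unpair ((e - 1) / 4)).2 (by omega) n
        refine ⟨f.imp g, ?_⟩
        show 4 * Nat.pair (gn id f) (gn id g) + 3 = e
        rw [hf, hg, Nat.pair_unpair]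
        omega
      · obtain ⟨f, hf⟩ := ih ((e - 1) / 4) (by omega) (n + 1)
        refine ⟨BoundedFormula.all f, ?_⟩
        show 4 * gn id f + 4 = e
        rw [hf]
        omega

/-- The main consequence: numbered structures with bounded quantifiers are strongly
constructive. -/
theorem strongConstr_of_bounding (hsurj : Function.Surjective ν) (hinj : Function.Injective ν)
    (hRb : Primrec fun p : ℕ × ℕ × ℕ => Rb p.1 p.2.1 p.2.2)
    (hR : ∀ i x y, Language.Structure.RelMap (L := LR) (RelSym.r i) ![ν x, ν y] ↔ Rb i x y = true)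
    (hBp : Primrec₂ B) (hB : Bounding ν B) : IsStrongConstructivization M ν := by
  refine ⟨hsurj, ?_⟩
  have h1 : PrimrecPred fun p : ℕ × List ℕ => (ev Rb B (p.1, [], p.2)).1 = true := by
    refine Primrec.eq.comp (Primrec.fst.comp ((ev_primrec Rb B hRb hBp).comp
      (Primrec.pair Primrec.fst (Primrec.pair (Primrec.const []) Primrec.snd))))
      (Primrec.const true)
  refine h1.computablePred.of_eq fun p => ?_
  constructor
  · intro h
    obtain ⟨φ, hφ⟩ := gn_surj p.1 0
    refine ⟨φ, hφ, ?_⟩
    rw [← hφ] at h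
    have h2 := (ev_correct ν Rb B hsurj hinj hR hB id φ [] p.2 rfl).1 h
    rw [Subsingleton.elim (fun i : Fin 0 => ν (([] : List ℕ).getD (0 - 1 - i) 0)) default] at h2
    exact h2
  · rintro ⟨φ, hφ, h⟩
    rw [← hφ]
    refine (ev_correct ν Rb B hsurj hinj hR hB id φ [] p.2 rfl).2 ?_
    rw [Subsingleton.elim (fun i : Fin 0 => ν (([] : List ℕ).getD (0 - 1 - i) 0)) default]
    exact h

theorem decidable_of_bounding [Nonempty M] (hsurj : Function.Surjective ν)
    (hinj : Function.Injective ν)
    (hRb : Primrec fun p : ℕ × ℕ × ℕ => Rb p.1 p.2.1 p.2.2)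
    (hR : ∀ i x y, Language.Structure.RelMap (L := LR) (RelSym.r i) ![ν x, ν y] ↔ Rb i x y = true)
    (hBp : Primrec₂ B) (hB0 : ∀ e m, 0 < B e m) (hB : Bounding ν B) :
    IsDecidable (LR.completeTheory M) := by
  have h1 : PrimrecPred fun e : ℕ => ev Rb B (e, [], []) = (true, true) := by
    refine Primrec.eq.comp ((ev_primrec Rb B hRb hBp).comp
      (Primrec.pair Primrec.id (Primrec.pair (Primrec.const []) (Primrec.const []))))
      (Primrec.const (true, true))
  refine h1.computablePred.of_eq fun e => ?_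
  constructor
  · intro h
    have h2 : (ev Rb B (e, [], [])).2 = true := by rw [h]
    obtain ⟨φ, hφ⟩ := closed_exists Rb B hB0 e [] [] h2
    change LR.BoundedFormula Empty 0 at φ
    change gn Empty.elim φ = e at hφ
    refine ⟨φ, hφ, ?_⟩
    have h3 : (ev Rb B (gn Empty.elim φ, [], [])).1 = true := by rw [hφ, h]
    have h4 := (ev_correct ν Rb B hsurj hinj hR hB Empty.elim (n := 0) φ [] [] rfl).1 h3
    rw [Subsingleton.elim (fun i : Fin 0 => ν (([] : List ℕ).getD (0 - 1 - i) 0)) default,
      Subsingleton.elim (fun a : Empty => ν (([] : List ℕ).getD (Empty.elim a) 0)) default] at h4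
    exact h4
  · rintro ⟨φ, hφ, h⟩
    have h2 : (ev Rb B (e, [], [])).2 = true := by
      rw [← hφ]; exact ev_closed Rb B 0 φ [] [] rfl
    have h3 : (ev Rb B (e, [], [])).1 = true := by
      rw [← hφ]
      refine (ev_correct ν Rb B hsurj hinj hR hB Empty.elim φ [] [] rfl).2 ?_
      rw [Subsingleton.elim (fun i : Fin 0 => ν (([] : List ℕ).getD (0 - 1 - i) 0)) default,
        Subsingleton.elim (fun a : Empty => ν (([] : List ℕ).getD (Empty.elim a) 0)) default]
      exact h
    exact Prod.ext h3 h2

end correct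

end Pool.Agent.Lib.MP_76ae7e_lc
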