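import Pool.Agent.Lib.MP_76ae7e_lc.Theory
import Pool.Agent.Lib.MP_76ae7e_lc.Eval

/-!
Decidability of the theory and strong constructivizations of the models `Md κ σ` for
`κ = Empty, Unit`.
-/

open FirstOrder Cardinal

namespace Pool.Agent.Lib.MP_76ae7e_lc

open Language

/-! ### swapping two blocks -/

/-- swap the blocks number `q`, `q'` of size `W` -/
def sw (q q' W v : ℕ) : ℕ := Equiv.swap q q' (v / W) * W + v % W

theorem sw_div {q q' W v : ℕ} (hW : 0 < W) : sw q q' W v / W = Equiv.swap q q' (v / W) := by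
  unfold sw
  rw [mul_comm, Nat.mul_add_div hW, Nat.div_eq_of_lt (Nat.mod_lt _ hW), add_zero]

theorem sw_mod {q q' W v : ℕ} : sw q q' W v % W = v % W := by
  unfold sw
  rw [mul_comm, Nat.mul_add_mod, Nat.mod_mod]

theorem sw_sw {q q' W v : ℕ} (hW : 0 < W) : sw q q' W (sw q q' W v) = v := by
  show Equiv.swap q q' (sw q q' W v / W) * W + sw q q' W v % W = v
  rw [sw_div hW, sw_mod, Equiv.swap_apply_self, mul_comm]
  exact Nat.div_add_mod v W

theorem div_iff_block {n N v v' : ℕ} (hn : n ≤ N) :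
    v / 3 ^ n = v' / 3 ^ n ↔ v / 3 ^ N = v' / 3 ^ N ∧
      v % 3 ^ N / 3 ^ n = v' % 3 ^ N / 3 ^ n := by
  obtain ⟨k, rfl⟩ := Nat.exists_eq_add_of_le hn
  rw [pow_add, Nat.mod_mul_right_div_self, Nat.mod_mul_right_div_self, ← Nat.div_div_eq_div_mul,
    ← Nat.div_div_eq_div_mul]
  constructor
  · intro h; rw [h]; exact ⟨rfl, rfl⟩
  · rintro ⟨h1, h2⟩
    rw [← Nat.div_add_mod (v / 3 ^ n) (3 ^ k), ← Nat.div_add_mod (v' / 3 ^ n) (3 ^ k), h1, h2]

theorem dig_mod {n N : ℕ} (hn : n < N) (v : ℕ) : dig n v = dig n (v % 3 ^ N) := by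
  unfold dig
  obtain ⟨k, rfl⟩ := Nat.exists_eq_add_of_lt hn
  rw [show n + k + 1 = n + (k + 1) by ring, pow_add, Nat.mod_mul_right_div_self,
    Nat.mod_mod_of_dvd _ (dvd_pow_self 3 (Nat.succ_ne_zero k))]

theorem PR_sw {τ : Bool → Bool} {n s N q q' v v' : ℕ} (hn : n < N) :
    PR τ n s (sw q q' (3 ^ N) v) (sw q q' (3 ^ N) v') ↔ PR τ n s v v' := by
  have hW : 0 < 3 ^ N := by positivity
  unfold PR
  rw [div_iff_block (n := n + 1) (N := N) hn (v := sw q q' (3 ^ N) v),
    div_iff_block (n := n + 1) (N := N) hn (v := v), sw_div hW, sw_div hW, sw_mod, sw_mod,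
    (Equiv.swap q q').injective.eq_iff, dig_mod hn (sw q q' (3 ^ N) v),
    dig_mod hn (sw q q' (3 ^ N) v'), sw_mod, sw_mod, ← dig_mod hn, ← dig_mod hn]

section
variable {κ : Type} (σ : κ → Bool → Bool)

open Classical in
/-- swapping two blocks in one copy -/
noncomputable def swM (cp : Option κ) (q q' N : ℕ) : Md κ σ ≃ Md κ σ where
  toFun a := if a.c = cp then ⟨a.c, sw q q' (3 ^ N) a.v⟩ else a
  invFun a := if a.c = cp then ⟨a.c, sw q q' (3 ^ N) a.v⟩ else a
  left_inv a := by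
    have hW : 0 < 3 ^ N := by positivity
    by_cases h : a.c = cp
    · simp only [h, if_true, sw_sw hW]
      ext1
      · exact h.symm
      · rfl
    · simp only [h, if_false]
  right_inv a := by
    have hW : 0 < 3 ^ N := by positivity
    by_cases h : a.c = cp
    · simp only [h, if_true, sw_sw hW]
      ext1
      · exact h.symm
      · rfl
    · simp only [h, if_false]

theorem swM_apply_of_eq {cp : Option κ} {q q' N : ℕ} {a : Md κ σ} (h : a.c = cp) :
    swM σ cp q q' N a = ⟨a.c, sw q q' (3 ^ N) a.v⟩ := if_pos h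

theorem swM_apply_of_ne {cp : Option κ} {q q' N : ℕ} {a : Md κ σ} (h : a.c ≠ cp) :
    swM σ cp q q' N a = a := if_neg h

theorem swM_c {cp : Option κ} {q q' N : ℕ} (a : Md κ σ) : (swM σ cp q q' N a).c = a.c := by
  by_cases h : a.c = cp
  · rw [swM_apply_of_eq σ h]
  · rw [swM_apply_of_ne σ h]

theorem swM_fix {cp : Option κ} {q q' N : ℕ} (a : Md κ σ) (h1 : a.v / 3 ^ N ≠ q)
    (h2 : a.v / 3 ^ N ≠ q') : swM σ cp q q' N a = a := by
  by_cases h : a.c = cp
  · rw [swM_apply_of_eq σ h]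
    ext1
    · rfl
    · show sw q q' (3 ^ N) a.v = a.v
      unfold sw
      rw [Equiv.swap_apply_of_ne_of_ne h1 h2, mul_comm]
      exact Nat.div_add_mod _ _
  · exact swM_apply_of_ne σ h

theorem swM_rel (cp : Option κ) (q q' e : ℕ) (hq : 1 ≤ q) (hq' : 1 ≤ q') (i : ℕ) (hi : i ≤ e)
    (a b : Md κ σ) :
    R' (Md κ σ) i (swM σ cp q q' (e + 1) a) (swM σ cp q q' (e + 1) b) ↔ R' (Md κ σ) i a b := by
  rw [R'_Md, R'_Md]
  rcases idx_cases i with ⟨m, rfl⟩ | ⟨n, s, rfl⟩
  · have hm : m < 3 ^ (e + 1) := by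
      unfold nm at hi
      have h1 : e + 1 < 3 ^ (e + 1) := Nat.lt_pow_self (by norm_num)
      omega
    have key : swM σ cp q q' (e + 1) (⟨none, m⟩ : Md κ σ) = ⟨none, m⟩ := by
      have h0 : m / 3 ^ (e + 1) = 0 := Nat.div_eq_of_lt hm
      exact swM_fix σ _ (by simp only [h0]; omega) (by simp only [h0]; omega)
    rw [rel_nm, rel_nm]
    have h1 : ∀ a : Md κ σ, swM σ cp q q' (e + 1) a = ⟨none, m⟩ ↔ a = ⟨none, m⟩ := by
      intro a
      constructor
      · intro h
        apply (swM σ cp q q' (e + 1)).injective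
        rw [h, key]
      · rintro rfl
        exact key
    rw [h1, h1]
  · have hn : n < e + 1 := by
      unfold ps at hi
      have := Nat.left_le_pair n s
      omega
    rw [rel_ps, rel_ps, swM_c, swM_c]
    by_cases hab : a.c = b.c
    · simp only [hab, true_and]
      by_cases h : b.c = cp
      · rw [swM_apply_of_eq σ (hab.trans h), swM_apply_of_eq σ h]
        exact PR_sw hn
      · have h' : a.c ≠ cp := fun h'' => h (hab.symm.trans h'')
        rw [swM_apply_of_ne σ h', swM_apply_of_ne σ h]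
    · simp only [hab, false_and]

/-- the key bounding lemma -/
theorem swM_bound (cp : Option κ) (v e m : ℕ) :
    ∃ π : Md κ σ ≃ Md κ σ,
      (∀ i ≤ e, ∀ a b : Md κ σ, Language.Structure.RelMap (L := LR) (RelSym.r i) ![π a, π b] ↔
        Language.Structure.RelMap (L := LR) (RelSym.r i) ![a, b]) ∧
      (∀ a : Md κ σ, a.v ≤ m → π a = a) ∧
      ∃ v' < (m / 3 ^ (e + 1) + 2) * 3 ^ (e + 1), π ⟨cp, v⟩ = ⟨cp, v'⟩ := by
  have hW : 0 < 3 ^ (e + 1) := by positivity
  by_cases hv : v / 3 ^ (e + 1) ≤ m / 3 ^ (e + 1) + 1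
  · refine ⟨Equiv.refl _, fun i _ a b => Iff.rfl, fun a _ => rfl, v, ?_, rfl⟩
    have h1 := Nat.div_add_mod v (3 ^ (e + 1))
    have h2 := Nat.mod_lt v hW
    calc v = 3 ^ (e + 1) * (v / 3 ^ (e + 1)) + v % 3 ^ (e + 1) := h1.symm
      _ < 3 ^ (e + 1) * (v / 3 ^ (e + 1)) + 3 ^ (e + 1) := by omega
      _ = (v / 3 ^ (e + 1) + 1) * 3 ^ (e + 1) := by ring
      _ ≤ (m / 3 ^ (e + 1) + 2) * 3 ^ (e + 1) := Nat.mul_le_mul_right _ (by omega)
  · have hv' := not_le.1 hv
    refine ⟨swM σ cp (v / 3 ^ (e + 1)) (m / 3 ^ (e + 1) + 1) (e + 1),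
      fun i hi a b => swM_rel σ cp _ _ e (le_trans (Nat.le_add_left 1 _) hv'.le)
        (Nat.le_add_left 1 _) i hi a b, fun a ha => ?_,
      (m / 3 ^ (e + 1) + 1) * 3 ^ (e + 1) + v % 3 ^ (e + 1), ?_, ?_⟩
    · have h1 : a.v / 3 ^ (e + 1) ≤ m / 3 ^ (e + 1) := Nat.div_le_div_right ha
      exact swM_fix σ a (by omega) (by omega)
    · have h2 := Nat.mod_lt v hW
      calc (m / 3 ^ (e + 1) + 1) * 3 ^ (e + 1) + v % 3 ^ (e + 1)
          < (m / 3 ^ (e + 1) + 1) * 3 ^ (e + 1) + 3 ^ (e + 1) := by omega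
        _ = (m / 3 ^ (e + 1) + 2) * 3 ^ (e + 1) := by ring
    · rw [swM_apply_of_eq σ (rfl : (⟨cp, v⟩ : Md κ σ).c = cp)]
      ext1
      · rfl
      · show sw _ _ _ v = _
        unfold sw
        rw [Equiv.swap_apply_left]

end

/-! ### decidable versions of the relations -/

/-- decidable version of `PR`; `u` says whether the copy is unnamed, `g` is its sign function -/
def PRb (g : Bool → Bool) (u : Bool) (n s x y : ℕ) : Bool :=
  (x / 3 ^ (n + 1) == y / 3 ^ (n + 1)) &&
    Option.casesOn (theta n s) true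
      (fun b => y / 3 ^ n % 3 == (x / 3 ^ n % 3 + stp (!u || g b)) % 3)

theorem PRb_iff (g : Bool → Bool) (u : Bool) (n s x y : ℕ) :
    PRb g u n s x y = true ↔ PR (fun b => !u || g b) n s x y := by
  unfold PRb PR dig
  rw [Bool.and_eq_true, beq_iff_eq]
  cases theta n s with
  | none => simp
  | some b => simp

theorem stp_primrec : Primrec stp := Primrec.dom_bool _

theorem pow3_primrec : Primrec fun n : ℕ => 3 ^ n := by
  have h : Primrec₂ ((· ^ ·) : ℕ → ℕ → ℕ) := Primrec₂.unpaired'.1 Nat.Primrec.pow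
  exact h.comp (Primrec.const 3) Primrec.id

theorem PRb_primrec {α : Type} [Primcodable α] (g : Bool → Bool) {u : α → Bool}
    {n s x y : α → ℕ} (hu : Primrec u) (hn : Primrec n) (hs : Primrec s) (hx : Primrec x)
    (hy : Primrec y) : Primrec fun a => PRb g (u a) (n a) (s a) (x a) (y a) := by
  unfold PRb
  have hp1 : Primrec fun a => 3 ^ (n a + 1) := pow3_primrec.comp (Primrec.succ.comp hn)
  have hp : Primrec fun a => 3 ^ (n a) := pow3_primrec.comp hn
  refine Primrec.and.comp ?_ ?_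
  · exact Primrec.beq.comp (Primrec.nat_div.comp hx hp1) (Primrec.nat_div.comp hy hp1)
  · refine Primrec.option_casesOn (theta_primrec.comp hn hs) (Primrec.const true) ?_
    have h1 : Primrec fun p : α × Bool => y p.1 / 3 ^ (n p.1) % 3 :=
      Primrec.nat_mod.comp ((Primrec.nat_div.comp hy hp).comp Primrec.fst) (Primrec.const 3)
    have h2 : Primrec fun p : α × Bool => x p.1 / 3 ^ (n p.1) % 3 :=
      Primrec.nat_mod.comp ((Primrec.nat_div.comp hx hp).comp Primrec.fst) (Primrec.const 3)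
    have h3 : Primrec fun p : α × Bool => stp (!(u p.1) || g p.2) :=
      stp_primrec.comp (Primrec.or.comp (Primrec.not.comp (hu.comp Primrec.fst))
        ((Primrec.dom_bool g).comp Primrec.snd))
    exact Primrec.beq.comp h1 (Primrec.nat_mod.comp (Primrec.nat_add.comp h2 h3)
      (Primrec.const 3))

/-- the bound -/
def Bd (e m : ℕ) : ℕ := 2 * ((m / 3 ^ (e + 1) + 2) * 3 ^ (e + 1))

theorem Bd_primrec : Primrec₂ Bd := by
  unfold Bd
  have h1 : Primrec fun p : ℕ × ℕ => 3 ^ (p.1 + 1) :=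
    pow3_primrec.comp (Primrec.succ.comp Primrec.fst)
  exact Primrec.nat_mul.comp (Primrec.const 2) (Primrec.nat_mul.comp
    (Primrec.nat_add.comp (Primrec.nat_div.comp Primrec.snd h1) (Primrec.const 2)) h1)

theorem Bd_pos (e m : ℕ) : 0 < Bd e m := by unfold Bd; positivity

/-! ### the numbering of the prime model -/

/-- numbering of `M0` -/
def nu0 (x : ℕ) : M0 := ⟨none, x⟩

theorem nu0_surj : Function.Surjective nu0 := by
  rintro ⟨c, v⟩
  cases c with
  | none => exact ⟨v, rfl⟩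
  | some k => exact Empty.elim k

theorem nu0_inj : Function.Injective nu0 := fun _ _ h => (Md.ext_iff.1 h).2

/-- relations of `M0` on numbers -/
def Rb0 (i x y : ℕ) : Bool :=
  if i % 2 = 0 then (x == i / 2) && (y == i / 2)
  else PRb (fun _ => true) false (Nat.unpair (i / 2)).1 (Nat.unpair (i / 2)).2 x y

theorem Rb0_primrec : Primrec fun p : ℕ × ℕ × ℕ => Rb0 p.1 p.2.1 p.2.2 := by
  unfold Rb0
  have hi2 : Primrec fun p : ℕ × ℕ × ℕ => p.1 / 2 := Primrec.nat_div.comp Primrec.fst (Primrec.const 2)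
  have hx : Primrec fun p : ℕ × ℕ × ℕ => p.2.1 := Primrec.fst.comp Primrec.snd
  have hy : Primrec fun p : ℕ × ℕ × ℕ => p.2.2 := Primrec.snd.comp Primrec.snd
  refine Primrec.ite (Primrec.eq.comp (Primrec.nat_mod.comp Primrec.fst (Primrec.const 2))
    (Primrec.const 0)) ?_ ?_
  · exact Primrec.and.comp (Primrec.beq.comp hx hi2) (Primrec.beq.comp hy hi2)
  · exact PRb_primrec _ (Primrec.const false) (Primrec.fst.comp (Primrec.unpair.comp hi2))
      (Primrec.snd.comp (Primrec.unpair.comp hi2)) hx hy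

theorem Rb0_spec (i x y : ℕ) :
    Language.Structure.RelMap (L := LR) (RelSym.r i) ![nu0 x, nu0 y] ↔ Rb0 i x y = true := by
  show rel i (nu0 x) (nu0 y) ↔ _
  unfold rel Rb0 nu0
  by_cases h : i % 2 = 0
  · simp only [h, if_true, Md.mk.injEq, true_and, Bool.and_eq_true, beq_iff_eq]
  · simp only [h, if_false, true_and]
    rw [PRb_iff]
    exact Iff.rfl

theorem bounding0 : Bounding nu0 Bd := by
  intro e m x
  obtain ⟨π, h1, h2, v', hv', h3⟩ := swM_bound (pos Empty) none x e m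
  exact ⟨π, h1, fun k hk => h2 _ hk, v', lt_of_lt_of_le hv' (by unfold Bd; omega), h3⟩

theorem nu0_strong : IsStrongConstructivization M0 nu0 :=
  strongConstr_of_bounding nu0 Rb0 Bd nu0_surj nu0_inj Rb0_primrec Rb0_spec Bd_primrec bounding0

theorem Th_decidable : IsDecidable Th :=
  decidable_of_bounding nu0 Rb0 Bd nu0_surj nu0_inj Rb0_primrec Rb0_spec Bd_primrec Bd_pos
    bounding0

/-! ### the numberings of the models with one unnamed copy -/

/-- numbering of `Md Unit σ` -/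
def nu1 (g : Bool → Bool) (x : ℕ) : Md Unit (fun _ => g) :=
  if x % 2 = 0 then ⟨none, x / 2⟩ else ⟨some (), x / 2⟩

theorem nu1_surj (g : Bool → Bool) : Function.Surjective (nu1 g) := by
  rintro ⟨c, v⟩
  cases c with
  | none =>
    refine ⟨2 * v, ?_⟩
    unfold nu1
    have h1 : 2 * v % 2 = 0 := by omega
    have h2 : 2 * v / 2 = v := by omega
    simp [h1, h2]
  | some k =>
    refine ⟨2 * v + 1, ?_⟩
    unfold nu1
    have h1 : (2 * v + 1) % 2 = 1 := by omega
    have h2 : (2 * v + 1) / 2 = v := by omega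
    simp [h1, h2]

theorem nu1_inj (g : Bool → Bool) : Function.Injective (nu1 g) := by
  intro x y h
  unfold nu1 at h
  split_ifs at h with h1 h2 h2 <;> simp only [Md.mk.injEq, reduceCtorEq, false_and, true_and] at h
  · omega
  · omega

/-- relations of `Md Unit (fun _ => g)` on numbers -/
def Rb1 (g : Bool → Bool) (i x y : ℕ) : Bool :=
  if i % 2 = 0 then (x == i) && (y == i)
  else (x % 2 == y % 2) &&
    PRb g (x % 2 == 1) (Nat.unpair (i / 2)).1 (Nat.unpair (i / 2)).2 (x / 2) (y / 2)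

theorem Rb1_primrec (g : Bool → Bool) :
    Primrec fun p : ℕ × ℕ × ℕ => Rb1 g p.1 p.2.1 p.2.2 := by
  unfold Rb1
  have hi2 : Primrec fun p : ℕ × ℕ × ℕ => p.1 / 2 := Primrec.nat_div.comp Primrec.fst (Primrec.const 2)
  have hx : Primrec fun p : ℕ × ℕ × ℕ => p.2.1 := Primrec.fst.comp Primrec.snd
  have hy : Primrec fun p : ℕ × ℕ × ℕ => p.2.2 := Primrec.snd.comp Primrec.snd
  have hx2 : Primrec fun p : ℕ × ℕ × ℕ => p.2.1 % 2 := Primrec.nat_mod.comp hx (Primrec.const 2)
  have hy2 : Primrec fun p : ℕ × ℕ × ℕ => p.2.2 % 2 := Primrec.nat_mod.comp hy (Primrec.const 2)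
  refine Primrec.ite (Primrec.eq.comp (Primrec.nat_mod.comp Primrec.fst (Primrec.const 2))
    (Primrec.const 0)) ?_ ?_
  · exact Primrec.and.comp (Primrec.beq.comp hx Primrec.fst) (Primrec.beq.comp hy Primrec.fst)
  · refine Primrec.and.comp (Primrec.beq.comp hx2 hy2) ?_
    exact PRb_primrec _ (Primrec.beq.comp hx2 (Primrec.const 1))
      (Primrec.fst.comp (Primrec.unpair.comp hi2))
      (Primrec.snd.comp (Primrec.unpair.comp hi2)) (Primrec.nat_div.comp hx (Primrec.const 2))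
      (Primrec.nat_div.comp hy (Primrec.const 2))

theorem nu1_eq_none (g : Bool → Bool) (x m : ℕ) : nu1 g x = ⟨none, m⟩ ↔ x = 2 * m := by
  unfold nu1
  split_ifs with h
  · simp only [Md.mk.injEq, true_and]; omega
  · simp only [Md.mk.injEq, reduceCtorEq, false_and, false_iff]; omega

theorem Rb1_spec (g : Bool → Bool) (i x y : ℕ) :
    Language.Structure.RelMap (L := LR) (RelSym.r i) ![nu1 g x, nu1 g y] ↔
      Rb1 g i x y = true := by
  show rel i (nu1 g x) (nu1 g y) ↔ _
  rcases idx_cases i with ⟨m, rfl⟩ | ⟨n, s, rfl⟩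
  · rw [rel_nm, nu1_eq_none, nu1_eq_none]
    unfold Rb1 nm
    have h1 : 2 * m % 2 = 0 := by omega
    simp only [h1, if_true, Bool.and_eq_true, beq_iff_eq]
  · rw [rel_ps]
    unfold Rb1 ps
    have h1 : (2 * Nat.pair n s + 1) % 2 ≠ 0 := by omega
    have h2 : (2 * Nat.pair n s + 1) / 2 = Nat.pair n s := by omega
    simp only [h1, if_false, h2, Nat.unpair_pair, Bool.and_eq_true, beq_iff_eq]
    rw [PRb_iff]
    have hcx : (nu1 g x).v = x / 2 := by unfold nu1; split_ifs <;> rfl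
    have hcy : (nu1 g y).v = y / 2 := by unfold nu1; split_ifs <;> rfl
    rw [hcx, hcy]
    have hc : (nu1 g x).c = (nu1 g y).c ↔ x % 2 = y % 2 := by
      unfold nu1
      split_ifs with h3 h4 h4 <;> simp <;> omega
    rw [hc]
    have hs : ext (fun _ : Unit => g) (nu1 g x).c = fun b => !(x % 2 == 1) || g b := by
      funext b
      unfold nu1
      split_ifs with h3
      · simp [ext, h3]
      · have h4 : x % 2 = 1 := by omega
        simp [ext, h4]
    rw [hs]

theorem bounding1 (g : Bool → Bool) : Bounding (nu1 g) Bd := by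
  intro e m x
  have hv : ∀ k, (nu1 g k).v = k / 2 := fun k => by unfold nu1; split_ifs <;> rfl
  have hfix : ∀ k ≤ m, (nu1 g k).v ≤ m := fun k hk => by rw [hv]; omega
  obtain ⟨π, h1, h2, v', hv', h3⟩ := swM_bound (fun _ => g) (nu1 g x).c (nu1 g x).v e m
  refine ⟨π, h1, fun k hk => h2 _ (hfix k hk), ?_⟩
  by_cases hx : x % 2 = 0
  · refine ⟨2 * v', by unfold Bd; omega, ?_⟩
    have h4 : (nu1 g x).c = none := by unfold nu1; rw [if_pos hx]
    have h5 : nu1 g (2 * v') = ⟨none, v'⟩ := (nu1_eq_none g _ _).2 rfl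
    rw [h5]
    rw [h4] at h3
    rw [← h3]
    congr 1
    ext1
    · exact h4
    · rfl
  · refine ⟨2 * v' + 1, by unfold Bd; omega, ?_⟩
    have h4 : (nu1 g x).c = some () := by unfold nu1; rw [if_neg hx]
    have h5 : nu1 g (2 * v' + 1) = ⟨some (), v'⟩ := by
      unfold nu1
      have h6 : (2 * v' + 1) % 2 ≠ 0 := by omega
      have h7 : (2 * v' + 1) / 2 = v' := by omega
      rw [if_neg h6, h7]
    rw [h5]
    rw [h4] at h3
    rw [← h3]
    congr 1
    ext1
    · exact h4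
    · rfl

theorem nu1_strong (g : Bool → Bool) :
    IsStrongConstructivization (Md Unit (fun _ => g)) (nu1 g) :=
  strongConstr_of_bounding (nu1 g) (Rb1 g) Bd (nu1_surj g) (nu1_inj g) (Rb1_primrec g)
    (Rb1_spec g) Bd_primrec (bounding1 g)

end Pool.Agent.Lib.MP_76ae7e_lc
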