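import Pool.Agent.Lib.MP_76ae7e_lc.Diagram

/-!
The prime model is strongly autostable, the next model is neither saturated nor strongly
autostable.
-/

open FirstOrder Cardinal

namespace Pool.Agent.Lib.MP_76ae7e_lc

open Language

/-! ### the prime model -/

/-- naming function -/
noncomputable def nameFn {N : Type} [LR.Structure N] (h : Good N) (m : ℕ) : N :=
  (h.nm_ex m).choose

theorem nameFn_spec {N : Type} [LR.Structure N] (h : Good N) (m : ℕ) :
    R' N (nm m) (nameFn h m) (nameFn h m) := (h.nm_ex m).choose_spec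

/-- the sentence saying that `φ` holds at the elements named by `m` -/
def nameSentence {n : ℕ} (φ : LR.Formula (Fin n)) (m : Fin n → ℕ) : LR.Sentence :=
  (((List.finRange n).map (fun i => fR (nm (m i)) i i)).foldr (· ⊓ ·) ⊤ ⊓
    (BoundedFormula.relabel Sum.inr φ : LR.BoundedFormula Empty n)).exs

theorem realize_nameSentence {N : Type} [LR.Structure N] (h : Good N) {n : ℕ}
    (φ : LR.Formula (Fin n)) (m : Fin n → ℕ) :
    N ⊨ nameSentence φ m ↔ φ.Realize (nameFn h ∘ m) := by
  unfold nameSentence Sentence.Realize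
  rw [BoundedFormula.realize_exs]
  simp only [BoundedFormula.realize_inf, BoundedFormula.realize_foldr_inf, List.mem_map,
    List.mem_finRange, true_and, forall_exists_index, forall_apply_eq_imp_iff, realize_fR]
  constructor
  · rintro ⟨xs, h1, h2⟩
    have h3 : xs = nameFn h ∘ m := by
      funext i
      exact h.nm_uniq (m i) _ _ (h1 i) (nameFn_spec h (m i))
    subst h3
    exact (Formula.realize_relabel_sumInr φ).1 h2
  · intro h1
    exact ⟨nameFn h ∘ m, fun i => nameFn_spec h (m i), (Formula.realize_relabel_sumInr φ).2 h1⟩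

theorem M0_isPrime : IsPrimeModel Th (MdT (pos Empty)) := by
  intro N
  have gN : Good N := good_of_model (model_Ax_of_model_Th N.is_model)
  have g0 : Good M0 := good_Md _
  have hname0 : ∀ m, nameFn g0 m = ⟨none, m⟩ := by
    intro m
    have h1 := nameFn_spec g0 m
    rw [R'_Md, rel_nm] at h1
    exact h1.1
  refine ⟨⟨fun a => nameFn gN a.v, ?_⟩⟩
  intro n φ x
  change Fin n → M0 at x
  have hx : x = nameFn g0 ∘ (fun i => (x i).v) := by
    funext i
    show x i = nameFn g0 ((x i).v)
    rw [hname0]
    ext1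
    · cases hc : (x i).c with
      | none => rfl
      | some k => exact Empty.elim k
    · rfl
  have h1 := realize_nameSentence gN φ (fun i => (x i).v)
  have h2 := realize_nameSentence g0 φ (fun i => (x i).v)
  rw [← hx] at h2
  have hmod : N ⊨ LR.completeTheory M0 := N.is_model
  have h3 := realize_iff_of_model_completeTheory M0 N (nameSentence φ (fun i => (x i).v))
  exact h1.symm.trans (h3.trans h2)

/-! ### injectivity of the Goedel numbering -/

theorem termNum_inj {n : ℕ} {t t' : LR.Term (ℕ ⊕ Fin n)} (h : termNum id t = termNum id t') :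
    t = t' := by
  match t, t' with
  | .var (.inl a), .var (.inl b) =>
    have h1 : n + a = n + b := h
    have h2 : a = b := by omega
    rw [h2]
  | .var (.inl a), .var (.inr i) =>
    have h1 : n + a = i := h
    have := i.2
    omega
  | .var (.inr i), .var (.inl b) =>
    have h1 : (i : ℕ) = n + b := h
    have := i.2
    omega
  | .var (.inr i), .var (.inr j) =>
    have h1 : (i : ℕ) = j := h
    rw [Fin.ext h1]
  | .func f _, _ => exact Empty.elim f
  | _, .func f _ => exact Empty.elim f

theorem gn_inj {n : ℕ} (φ : LR.BoundedFormula ℕ n) :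
    ∀ φ' : LR.BoundedFormula ℕ n, gn id φ = gn id φ' → φ = φ' := by
  induction φ with
  | falsum =>
    intro φ' h
    cases φ' with
    | falsum => rfl
    | equal => exact absurd h (by simp [gn])
    | rel => exact absurd h (by simp [gn])
    | imp => exact absurd h (by simp [gn])
    | all => exact absurd h (by simp [gn])
  | equal t₁ t₂ =>
    intro φ' h
    cases φ' with
    | falsum => exact absurd h (by simp [gn])
    | equal u₁ u₂ =>
      have h1 : 4 * Nat.pair (termNum id t₁) (termNum id t₂) + 1 =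
        4 * Nat.pair (termNum id u₁) (termNum id u₂) + 1 := h
      have h2 : Nat.pair (termNum id t₁) (termNum id t₂) =
        Nat.pair (termNum id u₁) (termNum id u₂) := by omega
      rw [Nat.pair_eq_pair] at h2
      rw [termNum_inj h2.1, termNum_inj h2.2]
    | rel => exact absurd h (by simp only [gn]; omega)
    | imp => exact absurd h (by simp only [gn]; omega)
    | all => exact absurd h (by simp only [gn]; omega)
  | @rel n l R ts =>
    intro φ' h
    cases φ' with
    | falsum => exact absurd h (by simp [gn])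
    | equal => exact absurd h (by simp only [gn]; omega)
    | @rel _ l' Rr ts' =>
      match l, R, ts, l', Rr, ts' with
      | _, .r i, ts, _, .r i', ts' =>
        have h1 : 4 * Nat.pair i (Nat.pair (termNum id (ts 0)) (termNum id (ts 1))) + 2 =
          4 * Nat.pair i' (Nat.pair (termNum id (ts' 0)) (termNum id (ts' 1))) + 2 := h
        have h2 : Nat.pair i (Nat.pair (termNum id (ts 0)) (termNum id (ts 1))) =
          Nat.pair i' (Nat.pair (termNum id (ts' 0)) (termNum id (ts' 1))) := by omega
        rw [Nat.pair_eq_pair, Nat.pair_eq_pair] at h2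
        obtain ⟨rfl, h3, h4⟩ := h2
        have h5 : ts = ts' := by
          funext j
          fin_cases j
          · exact termNum_inj h3
          · exact termNum_inj h4
        rw [h5]
    | imp => exact absurd h (by simp only [gn]; omega)
    | all => exact absurd h (by simp only [gn]; omega)
  | imp f g ihf ihg =>
    intro φ' h
    cases φ' with
    | falsum => exact absurd h (by simp [gn])
    | equal => exact absurd h (by simp only [gn]; omega)
    | rel => exact absurd h (by simp only [gn]; omega)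
    | imp f' g' =>
      have h1 : 4 * Nat.pair (gn id f) (gn id g) + 3 =
        4 * Nat.pair (gn id f') (gn id g') + 3 := h
      have h2 : Nat.pair (gn id f) (gn id g) = Nat.pair (gn id f') (gn id g') := by omega
      rw [Nat.pair_eq_pair] at h2
      rw [ihf f' h2.1, ihg g' h2.2]
    | all => exact absurd h (by simp only [gn]; omega)
  | all f ih =>
    intro φ' h
    cases φ' with
    | falsum => exact absurd h (by simp [gn])
    | equal => exact absurd h (by simp only [gn]; omega)
    | rel => exact absurd h (by simp only [gn]; omega)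
    | imp => exact absurd h (by simp only [gn]; omega)
    | all f' =>
      have h1 : 4 * gn id f + 4 = 4 * gn id f' + 4 := h
      rw [ih f' (by omega)]

/-- the formula saying that the free variable `0` is named `m` -/
def nameFml (m : ℕ) : LR.Formula ℕ :=
  BoundedFormula.rel (L := LR) (RelSym.r (nm m)) ![Term.var (Sum.inl 0), Term.var (Sum.inl 0)]

theorem gn_nameFml (m : ℕ) : gn id (nameFml m) = 4 * Nat.pair (2 * m) (Nat.pair 0 0) + 2 := rfl

theorem realize_nameFml {M : Type} [LR.Structure M] (m : ℕ) (v : ℕ → M) :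
    (nameFml m).Realize v ↔ R' M (nm m) (v 0) (v 0) := by
  unfold nameFml R' Formula.Realize
  simp only [BoundedFormula.Realize]
  have : (fun i : Fin 2 => Term.realize (Sum.elim v default)
      ((![Term.var (Sum.inl 0), Term.var (Sum.inl 0)] : Fin 2 → LR.Term (ℕ ⊕ Fin 0)) i)) =
      ![v 0, v 0] := by
    funext i
    fin_cases i <;> rfl
  rw [this]

theorem M0_stronglyAutostable : IsStronglyAutostable M0 := by
  intro ν μ hν hμ
  have key : ∀ ρ : ℕ → M0, IsStrongConstructivization M0 ρ →
      ComputablePred fun p : ℕ × ℕ => ρ p.1 = ⟨none, p.2⟩ := by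
    intro ρ hρ
    obtain ⟨-, hc⟩ := hρ
    have h1 : Computable fun p : ℕ × ℕ =>
        ((4 * Nat.pair (2 * p.2) (Nat.pair 0 0) + 2, [p.1]) : ℕ × List ℕ) := by
      refine Primrec.to_comp ?_
      refine Primrec.pair ?_ (Primrec.list_cons.comp Primrec.fst (Primrec.const []))
      exact Primrec.nat_add.comp (Primrec.nat_mul.comp (Primrec.const 4)
        (Primrec₂.natPair.comp (Primrec.nat_mul.comp (Primrec.const 2) Primrec.snd)
          (Primrec.const _))) (Primrec.const 2)
    have h2 := ComputablePred.computable_iff.1 hc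
    obtain ⟨f, hf, hf'⟩ := h2
    refine ComputablePred.computable_iff.2 ⟨fun p => f (4 * Nat.pair (2 * p.2) (Nat.pair 0 0) + 2,
      [p.1]), hf.comp h1, ?_⟩
    funext p
    have h3 := congrFun hf' (4 * Nat.pair (2 * p.2) (Nat.pair 0 0) + 2, [p.1])
    rw [← h3]
    apply propext
    have h4 : (nameFml p.2).Realize (fun k => ρ (([p.1] : List ℕ).getD k 0)) ↔
        ρ p.1 = ⟨none, p.2⟩ := by
      rw [realize_nameFml, R'_Md, rel_nm]
      simp
    rw [← h4]
    constructor
    · intro h
      exact ⟨_, gn_nameFml p.2, h⟩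
    · rintro ⟨φ, hφ, h⟩
      rw [← gn_nameFml] at hφ
      rw [gn_inj _ _ hφ] at h
      exact h
  classical
  have hνc := key ν hν
  have hμc := key μ hμ
  have hex1 : ∀ n, ∃ m, ν n = ⟨none, m⟩ := fun n => by
    refine ⟨(ν n).v, ?_⟩
    ext1
    · cases hc : (ν n).c with
      | none => rfl
      | some k => exact Empty.elim k
    · rfl
  have hcomp1 : Computable (fun n => Nat.find (hex1 n)) :=
    Computable.find (P := fun n m => ν n = ⟨none, m⟩) hνc hex1
  have hex2 : ∀ n, ∃ k, μ k = ⟨none, Nat.find (hex1 n)⟩ := fun n => hμ.1 _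
  have hcomp2 : ComputablePred fun p : ℕ × ℕ => μ p.2 = ⟨none, Nat.find (hex1 p.1)⟩ := by
    obtain ⟨f, hf, hf'⟩ := ComputablePred.computable_iff.1 hμc
    refine ComputablePred.computable_iff.2 ⟨fun p => f (p.2, Nat.find (hex1 p.1)),
      hf.comp (Computable.pair Computable.snd (hcomp1.comp Computable.fst)), ?_⟩
    funext p
    exact congrFun hf' (p.2, Nat.find (hex1 p.1))
  have hcomp3 : Computable (fun n => Nat.find (hex2 n)) :=
    Computable.find (P := fun n k => μ k = ⟨none, Nat.find (hex1 n)⟩) hcomp2 hex2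
  refine ⟨Language.Equiv.refl LR M0, fun n => Nat.find (hex2 n), hcomp3, fun n => ?_⟩
  show ν n = μ (Nat.find (hex2 n))
  rw [Nat.find_spec (hex2 n)]
  exact Nat.find_spec (hex1 n)

/-! ### the next model -/

/-- The model with one unnamed copy. -/
abbrev M1 : Type := Md Unit (pos Unit)

/-- atomic formula with free variables -/
def fo (i : ℕ) {α : Type} (s t : α) : LR.Formula α :=
  BoundedFormula.rel (L := LR) (RelSym.r i) ![Term.var (Sum.inl s), Term.var (Sum.inl t)]

theorem realize_fo {M : Type} [LR.Structure M] {α : Type} (i : ℕ) (s t : α) (v : α → M) :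
    (fo i s t).Realize v ↔ R' M i (v s) (v t) := by
  unfold fo R' Formula.Realize
  simp only [BoundedFormula.Realize]
  have : (fun j : Fin 2 => Term.realize (Sum.elim v default)
      ((![Term.var (Sum.inl s), Term.var (Sum.inl t)] : Fin 2 → LR.Term (α ⊕ Fin 0)) j)) =
      ![v s, v t] := by
    funext j
    fin_cases j <;> rfl
  rw [this]

theorem M1_not_saturated : ¬ IsSaturated M1 := by
  intro h
  let A : Set M1 := {⟨some (), 0⟩}
  let a0 : A := ⟨⟨some (), 0⟩, rfl⟩
  have hA : #A < #M1 := by
    have h1 : #A = 1 := Cardinal.mk_singleton _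
    rw [h1]
    exact lt_of_lt_of_le Cardinal.one_lt_aleph0 (Cardinal.infinite_iff.1 inferInstance)
  let p : Set (LR.Formula (A ⊕ Unit)) :=
    {φ | (∃ n, φ = (fo (ps n 0) (Sum.inr ()) (Sum.inl a0)).not) ∨
      ∃ m, φ = (fo (nm m) (Sum.inr ()) (Sum.inr ())).not}
  have hfin : ∀ q : Finset (LR.Formula (A ⊕ Unit)), (q : Set _) ⊆ p → ∃ K : ℕ, ∀ K' ≥ K,
      ∀ φ ∈ q, φ.Realize (Sum.elim (fun a : A => (a : M1)) fun _ => ⟨some (), 3 ^ K'⟩) := by
    classical
    intro q
    induction q using Finset.induction_on with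
    | empty => intro _; exact ⟨0, fun _ _ φ hφ => absurd hφ (Finset.notMem_empty φ)⟩
    | insert φ q _ ih =>
      intro hq
      rw [Finset.coe_insert, Set.insert_subset_iff] at hq
      obtain ⟨K, hK⟩ := ih hq.2
      rcases hq.1 with ⟨n, rfl⟩ | ⟨m, rfl⟩
      · refine ⟨max K (n + 1), fun K' hK' ψ hψ => ?_⟩
        rcases Finset.mem_insert.1 hψ with rfl | hψ
        · rw [Formula.realize_not, realize_fo]
          intro h1
          have h2 : E M1 (n + 1) ⟨some (), 3 ^ K'⟩ ⟨some (), 0⟩ := h1
          rw [E_Md] at h2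
          have h3 : 3 ^ (n + 1) ≤ 3 ^ K' :=
            Nat.pow_le_pow_right (by norm_num) ((le_max_right _ _).trans hK')
          have h4 : 1 ≤ 3 ^ K' / 3 ^ (n + 1) := (Nat.one_le_div_iff (by positivity)).2 h3
          have h5 := h2.2
          simp only [Nat.zero_div] at h5
          omega
        · exact hK K' ((le_max_left _ _).trans hK') ψ hψ
      · refine ⟨K, fun K' hK' ψ hψ => ?_⟩
        rcases Finset.mem_insert.1 hψ with rfl | hψ
        · rw [Formula.realize_not, realize_fo, R'_Md, rel_nm]
          rintro ⟨h1, -⟩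
          have := (Md.ext_iff.1 h1).1
          simp at this
        · exact hK K' hK' ψ hψ
  obtain ⟨x, hx⟩ := h A hA p (fun q hq => by
    obtain ⟨K, hK⟩ := hfin q hq
    exact ⟨_, hK K le_rfl⟩)
  obtain ⟨c, v⟩ := x
  cases c with
  | none =>
    have h1 := hx _ (Or.inr ⟨v, rfl⟩)
    rw [Formula.realize_not, realize_fo, R'_Md, rel_nm] at h1
    exact h1 ⟨rfl, rfl⟩
  | some k =>
    have h1 := hx _ (Or.inl ⟨v, rfl⟩)
    rw [Formula.realize_not, realize_fo] at h1
    apply h1
    show E M1 (v + 1) ⟨some k, v⟩ ⟨some (), 0⟩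
    rw [E_Md]
    refine ⟨rfl, ?_⟩
    have h2 : v < 3 ^ (v + 1) :=
      lt_of_lt_of_le (Nat.lt_pow_self (by norm_num : 1 < 3)) (Nat.pow_le_pow_right (by norm_num)
        (Nat.le_succ v))
    simp only [Nat.zero_div]
    exact Nat.div_eq_of_lt h2

theorem named_Md {κ : Type} (σ : κ → Bool → Bool) (x : Md κ σ) :
    Named (Md κ σ) x ↔ x.c = none := by
  unfold Named
  simp only [R'_Md, rel_nm, and_self]
  constructor
  · rintro ⟨m, rfl⟩; rfl
  · intro h
    exact ⟨x.v, Md.ext h rfl⟩

theorem Einf_Md {κ : Type} (σ : κ → Bool → Bool) (x y : Md κ σ) :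
    Einf (Md κ σ) x y ↔ x.c = y.c := by
  unfold Einf
  simp only [E_Md]
  constructor
  · rintro ⟨_, h, _⟩; exact h
  · intro h
    refine ⟨x.v + y.v, h, ?_⟩
    have h1 : x.v + y.v < 3 ^ (x.v + y.v) := Nat.lt_pow_self (by norm_num)
    rw [Nat.div_eq_of_lt (by omega), Nat.div_eq_of_lt (by omega)]

/-- every structure with one unnamed copy is isomorphic to the standard one -/
theorem exists_iso_M1 (σ : Unit → Bool → Bool) : Nonempty (Md Unit σ ≃[LR] M1) := by
  have h := good_Md σ
  have e1 := h.iso
  have hun : Nonempty (h.Comp ≃ Unit) := by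
    have hne : Nonempty h.Comp := by
      refine ⟨⟨Quotient.mk h.sInf ⟨some (), 0⟩, fun x hx hn => ?_⟩⟩
      have h1 : Einf (Md Unit σ) x ⟨some (), 0⟩ := Quotient.exact (s := h.sInf) hx
      rw [Einf_Md] at h1
      rw [named_Md, h1] at hn
      simp at hn
    have hsub : Subsingleton h.Comp := by
      refine ⟨?_⟩
      rintro ⟨q, hq⟩ ⟨q', hq'⟩
      apply Subtype.ext
      obtain ⟨x, rfl⟩ := Quotient.exists_rep q
      obtain ⟨y, rfl⟩ := Quotient.exists_rep q'
      have h1 := hq x rfl
      have h2 := hq' y rfl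
      rw [named_Md] at h1 h2
      refine Quotient.sound (s := h.sInf) ?_
      show Einf (Md Unit σ) x y
      rw [Einf_Md]
      cases hx : x.c with
      | none => exact absurd hx h1
      | some k =>
        cases hy : y.c with
        | none => exact absurd hy h2
        | some k' => rfl
    let _ : Inhabited h.Comp := ⟨hne.some⟩
    let _ := Unique.mk' h.Comp
    exact ⟨Equiv.ofUnique h.Comp Unit⟩
  obtain ⟨e2⟩ := hun
  exact ⟨(reindex e2).comp e1⟩

theorem strongConstr_of_iso {M M' : Type} [LR.Structure M] [LR.Structure M'] (Φ : M' ≃[LR] M)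
    {ν : ℕ → M'} (hν : IsStrongConstructivization M' ν) :
    IsStrongConstructivization M (Φ ∘ ν) := by
  refine ⟨Φ.surjective.comp hν.1, hν.2.of_eq fun p => ?_⟩
  constructor
  · rintro ⟨φ, hφ, h⟩
    exact ⟨φ, hφ, (StrongHomClass.realize_formula Φ φ).2 h⟩
  · rintro ⟨φ, hφ, h⟩
    exact ⟨φ, hφ, (StrongHomClass.realize_formula Φ φ).1 h⟩

theorem M1_not_stronglyAutostable : ∃ ν μ : ℕ → M1, IsStrongConstructivization M1 ν ∧
    IsStrongConstructivization M1 μ ∧ ¬ AutoEquivalent M1 ν μ := by
  obtain ⟨Φ⟩ := exists_iso_M1 (fun _ => id)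
  refine ⟨nu1 (fun _ => true), Φ ∘ nu1 id, nu1_strong _, strongConstr_of_iso Φ (nu1_strong id), ?_⟩
  rintro ⟨g, f, hf, hg⟩
  apply theta_insep
  refine ⟨fun n => decide (dig n (f (2 * 3 ^ n + 1) / 2) = (dig n (f 1 / 2) + 1) % 3), ?_, ?_⟩
  · have h1 : Primrec fun q : ℕ × ℕ × ℕ =>
        decide (dig q.1 (q.2.1 / 2) = (dig q.1 (q.2.2 / 2) + 1) % 3) := by
      unfold dig
      have hp : Primrec fun q : ℕ × ℕ × ℕ => 3 ^ q.1 := pow3_primrec.comp Primrec.fst
      have hd : ∀ {r : ℕ × ℕ × ℕ → ℕ}, Primrec r →
          Primrec fun q : ℕ × ℕ × ℕ => r q / 2 / 3 ^ q.1 % 3 := by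
        intro r hr
        exact Primrec.nat_mod.comp (Primrec.nat_div.comp
          (Primrec.nat_div.comp hr (Primrec.const 2)) hp) (Primrec.const 3)
      exact (Primrec.eq.comp (hd (Primrec.fst.comp Primrec.snd))
        (Primrec.nat_mod.comp (Primrec.succ.comp (hd (Primrec.snd.comp Primrec.snd)))
          (Primrec.const 3))).decide
    have h2 : Computable fun n : ℕ => ((n, f (2 * 3 ^ n + 1), f 1) : ℕ × ℕ × ℕ) := by
      refine Computable.pair Computable.id (Computable.pair (hf.comp ?_) (Computable.const _))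
      exact (Primrec.succ.comp (Primrec.nat_mul.comp (Primrec.const 2) pow3_primrec)).to_comp
    exact h1.to_comp.comp h2
  · intro n s b hb
    have hv : ∀ (γ : Bool → Bool) (k : ℕ), (nu1 γ k).v = k / 2 := fun γ k => by
      unfold nu1; split_ifs <;> rfl
    -- the isomorphism
    have hΨ : ∀ k, Φ.symm (g (nu1 (fun _ => true) k)) = nu1 id (f k) := by
      intro k
      rw [hg k]
      exact Φ.symm_apply_apply _
    have hR : R' M1 (ps n s) (nu1 (fun _ => true) 1) (nu1 (fun _ => true) (2 * 3 ^ n + 1)) := by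
      rw [R'_Md, rel_ps]
      have h1 : nu1 (fun _ => true) 1 = ⟨some (), 0⟩ := rfl
      have h2 : nu1 (fun _ => true) (2 * 3 ^ n + 1) = ⟨some (), 3 ^ n⟩ := by
        unfold nu1
        have h3 : (2 * 3 ^ n + 1) % 2 ≠ 0 := by omega
        have h4 : (2 * 3 ^ n + 1) / 2 = 3 ^ n := by omega
        rw [if_neg h3, h4]
      rw [h1, h2]
      refine ⟨rfl, ?_, ?_⟩
      · show 0 / 3 ^ (n + 1) = 3 ^ n / 3 ^ (n + 1)
        rw [Nat.zero_div, Nat.div_eq_of_lt (Nat.pow_lt_pow_right (by norm_num) (Nat.lt_succ_self n))]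
      · intro b' _
        show dig n (3 ^ n) = (dig n 0 + stp true) % 3
        unfold dig stp
        rw [Nat.div_self (by positivity), Nat.zero_div]
        rfl
    have hR2 : R' (Md Unit (fun _ => id)) (ps n s) (nu1 id (f 1)) (nu1 id (f (2 * 3 ^ n + 1))) := by
      rw [← hΨ, ← hΨ, equiv_R', equiv_R']
      exact hR
    have hunn : (nu1 id (f 1)).c = some () := by
      by_contra hne
      have h1 : (nu1 id (f 1)).c = none := by
        cases hc : (nu1 id (f 1)).c with
        | none => rfl
        | some k => exact absurd hc hne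
      rw [← named_Md (fun _ => id)] at h1
      obtain ⟨m, hm⟩ := h1
      rw [← hΨ, equiv_R', equiv_R'] at hm
      have h2 : (nu1 (fun _ => true) 1).c = none := (named_Md _ _).1 ⟨m, hm⟩
      exact absurd h2 (by simp [nu1])
    rw [R'_Md, rel_ps] at hR2
    obtain ⟨-, -, h3⟩ := hR2
    have h4 := h3 b hb
    rw [hunn, hv, hv] at h4
    show decide (dig n (f (2 * 3 ^ n + 1) / 2) = (dig n (f 1 / 2) + 1) % 3) = b
    rw [h4]
    have h5 := dig_lt n (f 1 / 2)
    cases b with
    | true => simp [ext, stp]
    | false =>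
      have h6 : stp (ext (fun _ : Unit => (id : Bool → Bool)) (some ()) false) = 2 := rfl
      rw [h6, decide_eq_false_iff_not]
      omega

end Pool.Agent.Lib.MP_76ae7e_lc
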