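import Pool.Agent.Lib.MP_76ae7e_lc.Axioms

/-!
The theory `Th`, its completeness and uncountable categoricity; prime model.
-/

open FirstOrder Cardinal

namespace Pool.Agent.Lib.MP_76ae7e_lc

open Language

/-- The constant sign function. -/
abbrev pos (κ : Type) : κ → Bool → Bool := fun _ _ => true

/-- The prime model: just the named copy. -/
abbrev M0 : Type := Md Empty (pos Empty)

/-- The theory. -/
def Th : LR.Theory := LR.completeTheory M0

theorem Md_model_Ax {κ : Type} (σ : κ → Bool → Bool) : Md κ σ ⊨ Ax :=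
  (Theory.model_iff _).2 fun _ hφ => hφ κ σ

theorem Ax_subset_Th : Ax ⊆ Th := fun _ hφ => hφ Empty (pos Empty)

/-- `Md κ σ` as a product -/
def MdEquiv (κ : Type) (σ : κ → Bool → Bool) : Md κ σ ≃ Option κ × ℕ :=
  ⟨fun a => (a.c, a.v), fun a => ⟨a.1, a.2⟩, fun _ => rfl, fun _ => rfl⟩

instance {κ : Type} (σ : κ → Bool → Bool) : Infinite (Md κ σ) :=
  Infinite.of_injective (fun n : ℕ => (⟨none, n⟩ : Md κ σ)) fun _ _ h => (Md.ext_iff.1 h).2

instance {κ : Type} [Countable κ] (σ : κ → Bool → Bool) : Countable (Md κ σ) :=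
  (MdEquiv κ σ).injective.countable

theorem mk_Md (κ : Type) (σ : κ → Bool → Bool) : #(Md κ σ) = max (#κ + 1) ℵ₀ := by
  rw [Cardinal.mk_congr (MdEquiv κ σ), Cardinal.mk_prod, Cardinal.lift_id, Cardinal.lift_id,
    Cardinal.mk_option, Cardinal.mk_nat]
  exact Cardinal.mul_eq_max_of_aleph0_le_right (by simp) le_rfl

theorem mk_of_mk_Md {κ : Type} {σ : κ → Bool → Bool} {μ : Cardinal.{0}} (hμ : ℵ₀ < μ)
    (h : #(Md κ σ) = μ) : #κ = μ := by
  rw [mk_Md] at h
  have h1 : #κ + 1 = μ := by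
    rcases max_choice (#κ + 1) ℵ₀ with h2 | h2
    · rw [← h, h2]
    · rw [h2] at h; exact absurd h hμ.ne
  have h2 : ℵ₀ ≤ #κ := by
    by_contra h3
    have h4 := not_le.1 h3
    have h5 : #κ + 1 < ℵ₀ := Cardinal.add_lt_aleph0 h4 Cardinal.one_lt_aleph0
    rw [h1] at h5
    exact absurd hμ (not_lt.2 h5.le)
  rw [← h1, Cardinal.add_one_eq h2]

theorem categorical_Ax {M N : Type} [LR.Structure M] [LR.Structure N] (hM : M ⊨ Ax) (hN : N ⊨ Ax)
    {μ : Cardinal.{0}} (hμ : ℵ₀ < μ) (h1 : #M = μ) (h2 : #N = μ) : Nonempty (M ≃[LR] N) := by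
  have gM := good_of_model hM
  have gN := good_of_model hN
  have e1 := gM.iso
  have e2 := gN.iso
  have c1 : #gM.Comp = μ := mk_of_mk_Md hμ ((Cardinal.mk_congr e1.toEquiv).symm.trans h1)
  have c2 : #gN.Comp = μ := mk_of_mk_Md hμ ((Cardinal.mk_congr e2.toEquiv).symm.trans h2)
  obtain ⟨e⟩ := Cardinal.eq.1 (c1.trans c2.symm)
  exact ⟨(e2.symm.comp (reindex e)).comp e1⟩

theorem card_LR : LR.card ≤ ℵ₀ := by
  have h1 : Countable LR.Symbols := by
    unfold Language.Symbols
    have hf : Countable (Σ l, LR.Functions l) :=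
      @instCountableSigma _ _ _ (fun l => (inferInstance : Countable Empty))
    have hr : Countable (Σ l, LR.Relations l) := by
      refine (Set.countable_univ_iff (α := Σ l, LR.Relations l)).1 ?_
      refine Set.Countable.mono (s₂ := Set.range fun i : ℕ =>
        (⟨2, RelSym.r i⟩ : Σ l, LR.Relations l)) ?_ (Set.countable_range _)
      rintro ⟨l, R⟩ -
      match l, R with
      | _, .r i => exact ⟨i, rfl⟩
    infer_instance
  exact Cardinal.mk_le_aleph0_iff.2 h1

theorem isComplete_Ax : Ax.IsComplete := by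
  refine Cardinal.Categorical.isComplete (ℵ₁ : Cardinal.{0}) Ax ?_ (Cardinal.aleph0_le_aleph 1)
    ?_ ?_ ?_
  · intro M N hM hN
    exact categorical_Ax M.is_model N.is_model Cardinal.aleph0_lt_aleph_one hM hN
  · simp only [Cardinal.lift_id]
    exact card_LR.trans (Cardinal.aleph0_le_aleph 1)
  · have := Md_model_Ax (pos Empty)
    exact Theory.Model.isSatisfiable M0
  · intro M
    have gM := good_of_model M.is_model
    exact Infinite.of_injective gM.iso.symm gM.iso.symm.injective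

theorem model_Th_of_model_Ax {N : Type} [LR.Structure N] [Nonempty N] (hN : N ⊨ Ax) : N ⊨ Th := by
  refine (Theory.model_iff _).2 fun φ hφ => ?_
  have h0 := Md_model_Ax (pos Empty)
  have h1 : M0 ⊨ φ := hφ
  exact (isComplete_Ax.realize_sentence_iff φ N).2
    ((isComplete_Ax.realize_sentence_iff φ M0).1 h1)

theorem model_Ax_of_model_Th {N : Type} [LR.Structure N] (hN : N ⊨ Th) : N ⊨ Ax :=
  Theory.Model.mono hN Ax_subset_Th

instance Md_model_Th {κ : Type} (σ : κ → Bool → Bool) : Md κ σ ⊨ Th :=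
  model_Th_of_model_Ax (Md_model_Ax σ)

/-- the standard models, bundled -/
def MdT {κ : Type} (σ : κ → Bool → Bool) : FirstOrder.Language.Theory.ModelType.{0, 0, 0} Th :=
  FirstOrder.Language.Theory.ModelType.of Th (Md κ σ)

theorem Th_isMaximal : Th.IsMaximal := completeTheory.isMaximal LR M0

theorem Th_categorical : IsUncountablyCategorical Th := by
  intro μ hμ
  refine ⟨⟨MdT (pos μ.out), ?_⟩, ?_⟩
  · have h1 := mk_Md μ.out (pos μ.out)
    rw [Cardinal.mk_out, Cardinal.add_one_eq hμ.le, max_eq_left hμ.le] at h1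
    exact h1
  · intro M N hM hN
    exact categorical_Ax (model_Ax_of_model_Th M.is_model) (model_Ax_of_model_Th N.is_model)
      hμ hM hN

end Pool.Agent.Lib.MP_76ae7e_lc
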